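import Pool.Agent.V1144.Dt.Defs

/-!
# The determinant of the cohomology and algebraic cycles: definitions
-/

open CategoryTheory AlgebraicGeometry

universe u v

namespace Pool.Agent.V1144.Dt

open Pool.Agent.H914 Pool.Agent.H914.VarClass Pool.Agent.H914.VarClass.Obj
  Pool.Agent.H914.WeilCohomology Pool.Agent.Y129

/-- The family `a` is a basis of the subspace `U`. -/
def IsBasisOf {K V : Type*} [Field K] [AddCommGroup V] [Module K V] (U : Submodule K V) {m : ℕ}
    (a : Fin m → V) : Prop :=
  LinearIndependent K a ∧ Submodule.span K (Set.range a) = U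

variable {k : Type u} [Field k] {𝒱 : VarClass k} {ops : CycleOps 𝒱}

/-- The intersection number of the cycle `z` and the class `x`. -/
noncomputable def interNumber (W : WeilCohomology.{u, v} ops) (Y : 𝒱.Obj) (z : Y.Cycles)
    (x : W.H Y) : W.K :=
  W.tr Y (W.cl Y z * x)

/-- The line spanned by the class `x` is spanned by the class of a cycle of codimension `p` with
rational coefficients. -/
def IsRationalLine (W : WeilCohomology.{u, v} ops) (Y : 𝒱.Obj) (p : ℕ) (x : W.H Y) : Prop :=
  ∃ r : W.K, r ≠ 0 ∧ ∃ z, Y.IsCyc p z ∧ W.cl Y z = r • x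

/-- The external product of the determinants of the families `a` and `b` of `n + 1` classes on `X`,
a class on the product of `2 (n + 1)` copies of `X`. -/
noncomputable def detBox (W : WeilCohomology.{u, v} ops) (X : 𝒱.Obj) (n : ℕ)
    (a b : Fin (n + 1) → W.H X) : W.H ((pw X n).prod (pw X n)) :=
  box W (pw X n) (pw X n) (detN W X n a) (detN W X n b)

/-- The square of the line `det H^i(X)`, a line in the cohomology of degree `2 i b` of the product
of `2 b` copies of `X`, where `b = dim H^i(X)`, is spanned by a linear combination of classes of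
cycles with coefficients in the coefficient field. (No condition if `b = 0`.) -/
def DetSquareSpan (W : WeilCohomology.{u, v} ops) (X : 𝒱.Obj) (i : ℕ) : Prop :=
  ∀ (n : ℕ) (a : Fin (n + 1) → W.H X), IsBasisOf (W.gr X i) a →
    detBox W X n a a ∈ spanCycles W ((pw X n).prod (pw X n)) (((n + 1) * i : ℕ) : ℤ)

/-- The square of the line `det H^i(X)` is spanned by the class of a cycle with rational
coefficients. -/
def DetSquareRational (W : WeilCohomology.{u, v} ops) (X : 𝒱.Obj) (i : ℕ) : Prop :=
  ∀ (n : ℕ) (a : Fin (n + 1) → W.H X), IsBasisOf (W.gr X i) a →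
    IsRationalLine W ((pw X n).prod (pw X n)) ((n + 1) * i) (detBox W X n a a)

/-- A generator of the square of the line `det H^(2 dim X - i)(X)` has nonzero intersection number
with an algebraic cycle of codimension `i b` on the product of `2 b` copies of `X`, where
`b = dim H^i(X)`. -/
def DetSquareNumNonzero (W : WeilCohomology.{u, v} ops) (X : 𝒱.Obj) (i : ℕ) : Prop :=
  ∀ (n : ℕ) (a : Fin (n + 1) → W.H X), IsBasisOf (W.gr X (2 * X.dim - i)) a →
    ∃ z, ((pw X n).prod (pw X n)).IsCyc ((n + 1) * i) z ∧
      interNumber W ((pw X n).prod (pw X n)) z (detBox W X n a a) ≠ 0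

end Pool.Agent.V1144.Dt
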