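import Pool.Agent.V1144.Dt.CDefs

/-!
# The conditions on the determinants in terms of bases
-/

open CategoryTheory AlgebraicGeometry

set_option linter.unusedSectionVars false
set_option linter.unusedVariables false

universe u v

namespace Pool.Agent.V1144.Dt

open Pool.Agent.H914 Pool.Agent.H914.VarClass Pool.Agent.H914.VarClass.Obj
  Pool.Agent.H914.WeilCohomology Pool.Agent.Y129

variable {k : Type u} [Field k] {𝒱 : VarClass k} {ops : CycleOps 𝒱}

/-- The square of the line `det H^i(X)`, a line in the cohomology of degree `2 i b` of the product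
of `2 b` copies of `X`, where `b = dim H^i(X)`, is spanned by a linear combination of classes of
cycles with coefficients in the coefficient field. (No condition if `b = 0`.) -/
def DetSquareSpanB (W : WeilCohomology.{u, v} ops) (X : 𝒱.Obj) (i : ℕ) : Prop :=
  ∀ (n : ℕ) (a : Module.Basis (Fin (n + 1)) W.K (W.gr X i)),
    detBox W X n (fun l => a l) (fun l => a l) ∈
      spanCycles W ((pw X n).prod (pw X n)) (((n + 1) * i : ℕ) : ℤ)

/-- The square of the line `det H^i(X)` is spanned by the class of a cycle with rational
coefficients. -/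
def DetSquareRationalB (W : WeilCohomology.{u, v} ops) (X : 𝒱.Obj) (i : ℕ) : Prop :=
  ∀ (n : ℕ) (a : Module.Basis (Fin (n + 1)) W.K (W.gr X i)),
    ∃ r : W.K, r ≠ 0 ∧ ∃ z, ((pw X n).prod (pw X n)).IsCyc ((n + 1) * i) z ∧
      W.cl _ z = r • detBox W X n (fun l => a l) (fun l => a l)

/-- A generator of the square of the line `det H^(2 dim X - i)(X)` has nonzero intersection number
with an algebraic cycle of codimension `i b` on the product of `2 b` copies of `X`, where
`b = dim H^i(X)`. -/
def DetSquareNumNonzeroB (W : WeilCohomology.{u, v} ops) (X : 𝒱.Obj) (i : ℕ) : Prop :=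
  ∀ (n : ℕ) (a : Module.Basis (Fin (n + 1)) W.K (W.gr X (2 * X.dim - i))),
    ∃ z, ((pw X n).prod (pw X n)).IsCyc ((n + 1) * i) z ∧
      W.tr _ (W.cl _ z * detBox W X n (fun l => a l) (fun l => a l)) ≠ 0


/-- The product of the lines `det H^(2 dim X - i)(X)` and `det H^i(X)`, a line in the cohomology of
the product of `2 b` copies of `X`, where `b = dim H^i(X)`, is spanned by a linear combination of
classes of cycles with coefficients in the coefficient field. -/
def DetProductSpanB (W : WeilCohomology.{u, v} ops) (X : 𝒱.Obj) (i : ℕ) : Prop :=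
  ∀ (n : ℕ) (a : Module.Basis (Fin (n + 1)) W.K (W.gr X (2 * X.dim - i)))
    (b : Module.Basis (Fin (n + 1)) W.K (W.gr X i)),
    detBox W X n (fun l => a l) (fun l => b l) ∈
      spanCycles W ((pw X n).prod (pw X n)) (((n + 1) * X.dim : ℕ) : ℤ)

/-- The product of the lines `det H^(2 dim X - i)(X)` and `det H^i(X)` is spanned by the class of a
cycle with rational coefficients. -/
def DetProductRationalB (W : WeilCohomology.{u, v} ops) (X : 𝒱.Obj) (i : ℕ) : Prop :=
  ∀ (n : ℕ) (a : Module.Basis (Fin (n + 1)) W.K (W.gr X (2 * X.dim - i)))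
    (b : Module.Basis (Fin (n + 1)) W.K (W.gr X i)),
    ∃ r : W.K, r ≠ 0 ∧ ∃ z, ((pw X n).prod (pw X n)).IsCyc ((n + 1) * X.dim) z ∧
      W.cl _ z = r • detBox W X n (fun l => a l) (fun l => b l)



variable {W : WeilCohomology.{u, v} ops} {X Y : 𝒱.Obj}

lemma isBasisOf_basis {K V : Type*} [Field K] [AddCommGroup V] [Module K V] {U : Submodule K V}
    {m : ℕ} (b : Module.Basis (Fin m) K U) : IsBasisOf U fun l => (b l : V) := by
  constructor
  · exact b.linearIndependent.map' U.subtype (Submodule.ker_subtype U)
  · have h1 : Set.range (fun l => (b l : V)) = U.subtype '' Set.range b := by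
      rw [← Set.range_comp]; rfl
    rw [h1, Submodule.span_image, b.span_eq, Submodule.map_top, Submodule.range_subtype]

lemma exists_basis {K V : Type*} [Field K] [AddCommGroup V] [Module K V] {U : Submodule K V}
    {m : ℕ} {a : Fin m → V} (h : IsBasisOf U a) :
    ∃ b : Module.Basis (Fin m) K U, (fun l => (b l : V)) = a := by
  obtain ⟨h1, rfl⟩ := h
  exact ⟨Module.Basis.span h1, funext fun l => congrArg Subtype.val (Module.Basis.span_apply h1 l)⟩

lemma detSquareSpan_iff {i : ℕ} : DetSquareSpan W X i ↔ DetSquareSpanB W X i := by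
  constructor
  · intro h n a
    exact h n _ (isBasisOf_basis a)
  · intro h n a ha
    obtain ⟨b, rfl⟩ := exists_basis ha
    exact h n b

lemma detSquareRational_iff {i : ℕ} : DetSquareRational W X i ↔ DetSquareRationalB W X i := by
  constructor
  · intro h n a
    exact h n _ (isBasisOf_basis a)
  · intro h n a ha
    obtain ⟨b, rfl⟩ := exists_basis ha
    exact h n b

lemma detSquareNumNonzero_iff {i : ℕ} :
    DetSquareNumNonzero W X i ↔ DetSquareNumNonzeroB W X i := by
  constructor
  · intro h n a
    exact h n _ (isBasisOf_basis a)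
  · intro h n a ha
    obtain ⟨b, rfl⟩ := exists_basis ha
    exact h n b

lemma detProductSpan_iff {i : ℕ} : DetProductSpan W X i ↔ DetProductSpanB W X i := by
  constructor
  · intro h n a b
    exact h n _ _ (isBasisOf_basis a) (isBasisOf_basis b)
  · intro h n a b ha hb
    obtain ⟨a, rfl⟩ := exists_basis ha
    obtain ⟨b, rfl⟩ := exists_basis hb
    exact h n a b

lemma detProductRational_iff {i : ℕ} :
    DetProductRational W X i ↔ DetProductRationalB W X i := by
  constructor
  · intro h n a b
    exact h n _ _ (isBasisOf_basis a) (isBasisOf_basis b)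
  · intro h n a b ha hb
    obtain ⟨a, rfl⟩ := exists_basis ha
    obtain ⟨b, rfl⟩ := exists_basis hb
    exact h n a b

end Pool.Agent.V1144.Dt
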