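import Pool.Agent.V1144.Dt.Dual
import Pool.Agent.V1144.Dt.Int
import Pool.Agent.V1144.Pw.Pow

/-!
# The conjecture B and the determinants of the cohomology
-/

open CategoryTheory AlgebraicGeometry Finset

set_option linter.unusedSectionVars false
set_option linter.unusedVariables false

universe u v

namespace Pool.Agent.V1144.Dt

open Pool.Agent.H914 Pool.Agent.H914.VarClass Pool.Agent.H914.VarClass.Obj
  Pool.Agent.H914.WeilCohomology Pool.Agent.H281R3.HT Pool.Agent.Y129

variable {k : Type u} [Field k] {𝒱 : VarClass k} {ops : CycleOps 𝒱}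
  {W : WeilCohomology.{u, v} ops} {X Y Z : 𝒱.Obj}

lemma detBox_smul_right (n : ℕ) (r : W.K) (a b c : Fin (n + 1) → W.H X)
    (h : detN W X n c = r • detN W X n b) : detBox W X n a c = r • detBox W X n a b := by
  rw [detBox, h, box_smul_right]
  rfl

lemma detBox_smul_left (n : ℕ) (r : W.K) (a b c : Fin (n + 1) → W.H X)
    (h : detN W X n c = r • detN W X n b) : detBox W X n c a = r • detBox W X n b a := by
  rw [detBox, h, box_smul_left]
  rfl

lemma det_ne_zero {U : Submodule W.K (W.H X)} {n : ℕ} (a b : Module.Basis (Fin (n + 1)) W.K U) :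
    a.det b ≠ 0 := by
  have h1 := a.is_basis_iff_det.1 ⟨b.linearIndependent, b.span_eq⟩
  exact h1.ne_zero

lemma powD_mem (S : AlgSys W) {D : X.Cycles} (hD : W.cl X D ∈ S.S X 1) (c : ℕ) :
    W.cl X D ^ c ∈ S.S X c := by
  induction c with
  | zero => rw [pow_zero]; exact S.one
  | succ c ih => rw [pow_succ]; exact S.mul ih hD

lemma mulLeft_pow_apply (x : W.H X) (c : ℕ) (b : W.H X) :
    (LinearMap.mulLeft W.K x ^ c) b = x ^ c * b := by
  rw [LinearMap.pow_mulLeft, LinearMap.mulLeft_apply]

/-- The Lefschetz pairing is nondegenerate. -/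
lemma lef_nondeg {D : X.Cycles} (hD : X.IsCyc 1 D) (hHL : HardLefschetz W X D) {i c : ℕ}
    (hic : i + c = X.dim) {y : W.H X} (hy : y ∈ W.gr X i)
    (h : ∀ x ∈ W.gr X i, W.tr X (x * y * W.cl X D ^ c) = 0) : y = 0 := by
  have hη : W.cl X D ^ c ∈ W.gr X (2 * c) :=
    (spanSys W).deg (powD_mem (spanSys W) (alg_mem_span ⟨D, hD, rfl⟩) c)
  have h1 : y * W.cl X D ^ c = 0 := by
    apply eq_zero_of_tr (i := i) (j := i + 2 * c) (by omega) (W.mul_mem hy hη)
    intro x hx
    rw [← mul_assoc]
    exact h x hx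
  have h2 := (hHL i (by omega)).1 y hy
  apply h2
  rw [mulLeft_pow_apply, show X.dim - i = c by omega, W.even_comm hη]
  exact h1

theorem lefschetzB_of_det {D : X.Cycles} (hD : X.IsCyc 1 D) (hHL : HardLefschetz W X D)
    (h : ∀ i < X.dim, DetSquareSpanB W X i) : LefschetzB W X D := by
  apply lefschetzB_of_inj hD hHL
  intro c hc
  rcases Nat.eq_zero_or_pos c with rfl | hc0
  · refine ⟨LinearMap.id, KOp.cast (KOp.id X) (by simp), fun a _ ha => ?_⟩
    exact ha
  set i := X.dim - c with hi
  have hη : W.cl X D ^ c ∈ (spanSys W).S X c :=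
    powD_mem (spanSys W) (alg_mem_span ⟨D, hD, rfl⟩) c
  rcases Nat.eq_zero_or_pos (W.betti X i) with hb | hb
  · refine ⟨0, Submodule.zero_mem _, fun a ha _ => ?_⟩
    have h1 : W.betti X (X.dim + c) = 0 := by
      have := betti_symm_le (X := X) W (i := X.dim + c) (j := i) (by omega)
      omega
    have h2 : W.gr X (X.dim + c) = ⊥ := Submodule.finrank_eq_zero.1 h1
    rw [h2] at ha
    exact (Submodule.mem_bot _).1 ha
  · obtain ⟨n, hn⟩ : ∃ n, W.betti X i = n + 1 := ⟨W.betti X i - 1, by omega⟩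
    have hn' : Module.finrank W.K (W.gr X i) = n + 1 := hn
    let a := Module.finBasisOfFinrankEq W.K (W.gr X i) hn'
    obtain ⟨a', ha'⟩ := exists_dual (W := W) (X := X) (i := i) (j := i) (η := W.cl X D ^ c)
      (fun y hy h => lef_nondeg hD hHL (by omega) hy h) rfl a
    have h1 := h i (by omega) n a
    have h2 : detBox W X n (fun l => a l) (fun l => a' l) ∈
        (spanSys W).S ((pw X n).prod (pw X n)) ((n + 1) * i) := by
      rw [detBox_smul_right n _ _ _ _ (detN_basis n a a')]
      exact Submodule.smul_mem _ _ h1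
    have h3 := theta_of_det (spanSys W) (i := i) (j := i) (c := c) (p := i) (by ring) (by omega)
      hη (fun l => (a l).2) (fun l => (a' l).2) ha' h2
    refine ⟨W.corr (∑ l, box W X X (a l) (a' l)), mem_KOp_iff.2 ⟨_, ?_, rfl⟩, fun z hz h0 => ?_⟩
    · have h4 : ∑ l, box W X X (a l) (a' l) ∈ spanCycles W (X.prod X) ((i : ℕ) : ℤ) := h3
      have h5 : ((i : ℕ) : ℤ) = X.dim + -(c : ℤ) := by omega
      rwa [h5] at h4
    · rw [corr_sum_box _ _ (fun l => (a' l).2) hz] at h0
      have h4 : ∑ l, W.tr X ((a l : W.H X) * z) • (a' l : W.H X) = 0 := by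
        rcases smul_eq_zero.1 h0 with h | h
        · exact absurd h (pow_ne_zero _ (neg_ne_zero.2 one_ne_zero))
        · exact h
      have h5 : ∑ l, W.tr X ((a l : W.H X) * z) • a' l = 0 := by
        apply Subtype.ext
        push_cast
        exact h4
      have h6 := Fintype.linearIndependent_iff.1 a'.linearIndependent _ h5
      apply eq_zero_of_tr (i := i) (j := X.dim + c) (by omega) hz
      intro x hx
      have h7 : x = ∑ l, a.repr ⟨x, hx⟩ l • (a l : W.H X) := by
        have := congrArg (Subtype.val) (a.sum_repr ⟨x, hx⟩)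
        push_cast at this
        exact this.symm
      rw [h7, Finset.sum_mul, map_sum]
      refine Finset.sum_eq_zero fun l _ => ?_
      rw [smul_mul_assoc, map_smul, h6 l, smul_zero]

theorem detRational_of_B {D : X.Cycles} (hD : X.IsCyc 1 D) (hHL : HardLefschetz W X D)
    (hB : LefschetzB W X D) {i : ℕ} (hi : i < X.dim) : DetSquareRationalB W X i := by
  intro n a
  set c := X.dim - i with hc
  obtain ⟨Φ, hΦ, hLam⟩ := lefschetzB_iff_rop.1 hB
  have hLR : ROp W X 1 (LinearMap.mulLeft W.K (W.cl X D)) := rop_mulLeft hD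
  have hLh : IsHom (W.gr X) 2 (LinearMap.mulLeft W.K (W.cl X D)) := by
    simpa using rop_opAlg.hom hLR
  obtain ⟨a', ha'⟩ := exists_dual (W := W) (X := X) (i := i) (j := i) (η := W.cl X D ^ c)
    (fun y hy h => lef_nondeg hD hHL (by omega) hy h) rfl a
  have hη : W.cl X D ^ c ∈ W.gr X (2 * c) :=
    (spanSys W).deg (powD_mem (spanSys W) (alg_mem_span ⟨D, hD, rfl⟩) c)
  have hT : ROp W X (-c) (Φ ^ c * proj (W.isInternal X) (2 * X.dim - i)) := by
    have h1 := rop_opAlg.mul (rop_opAlg.pow hΦ c)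
      (rop_opAlg.proj_mem (W.isInternal X) W_hbd hLR hHL hΦ hLam (2 * X.dim - i))
    exact rop_opAlg.cast h1 (by ring)
  obtain ⟨Y, ⟨q, hq, z, hz, hY⟩ | ⟨hneg, _⟩, hYT⟩ := hT
  · obtain rfl : q = i := by omega
    have h1 := theta_mem_alg (i := q) (j := q) (n := n) (q := q) (by omega)
      (a := fun l => a l) (a' := fun l => a' l)
      (fun l => (a l).2) (fun l => (a' l).2) (γ := W.cl _ z) ⟨z, hz, rfl⟩
      ((hY W).symm.trans hYT) (by
        intro l hl x hx
        rw [Module.End.mul_apply, proj_ne _ hx hl, map_zero]) (by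
        intro x hx
        obtain ⟨b, hb, rfl⟩ := (hHL q (by omega)).2 x hx
        rw [Module.End.mul_apply, proj_same _ hx]
        have h2 := lam_pow_L_pow hLh W_hbd hHL hLam (c := c) (by omega) (a := b)
          (by rw [show X.dim - c = q by omega]; exact hb)
        rw [← hc, h2]
        have h3 := sum_dual (i := q) (η := W.cl X D ^ c) (a := fun l => (a l : W.H X)) a' ha' hb
        rw [← h3]
        refine Finset.sum_congr rfl fun l _ => ?_
        rw [h3, mulLeft_pow_apply, W.even_comm hη, mul_assoc])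
    have h2 := det_of_theta (ratSys W) (i := q) (j := q) (p := q) (by ring)
      (fun l => (a l).2) (fun l => (a' l).2) h1
    have h3 := detBox_smul_right n _ (fun l => (a l : W.H X)) _ _ (detN_basis n a a')
    obtain ⟨w, hw, hw'⟩ := h2
    exact ⟨a.det a', det_ne_zero a a', w, hw, hw'.trans h3⟩
  · omega

lemma detSpan_of_rational {i : ℕ} (h : DetSquareRationalB W X i) : DetSquareSpanB W X i := by
  intro n a
  obtain ⟨r, hr, z, hz, h1⟩ := h n a
  have h2 : detBox W X n (fun l => a l) (fun l => a l) = r⁻¹ • W.cl _ z := by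
    rw [h1, smul_smul, inv_mul_cancel₀ hr, one_smul]
  rw [h2]
  exact Submodule.smul_mem _ _ (alg_mem_span ⟨z, hz, rfl⟩)

end Pool.Agent.V1144.Dt
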