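import Pool.Agent.H914R2.KDefs
import Pool.Agent.Y129.Defs

/-!
# The determinant of the cohomology in one degree: definitions
-/

open CategoryTheory AlgebraicGeometry

universe u v

namespace Pool.Agent.V1144.Dt

open Pool.Agent.H914 Pool.Agent.H914.VarClass Pool.Agent.H914.VarClass.Obj
  Pool.Agent.H914.WeilCohomology Pool.Agent.Y129

variable {k : Type u} [Field k] {𝒱 : VarClass k} {ops : CycleOps 𝒱}

/-- The external product `a_0 × ... × a_n` in the cohomology of the product of `n + 1` copies of
`X`. -/
noncomputable def boxN (W : WeilCohomology.{u, v} ops) (X : 𝒱.Obj) (n : ℕ)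
    (a : Fin (n + 1) → W.H X) : W.H (pw X n) :=
  (List.ofFn fun i => W.map (pj X n i) (a i)).prod

/-- The antisymmetrized external product `∑ sgn (σ) a_(σ 0) × ... × a_(σ n)`. If `a` is a basis of
`H^i(X)` then it spans the line `det H^i(X)` in the cohomology of the product of `n + 1` copies of
`X`, where `n + 1` is the dimension of `H^i(X)`. -/
noncomputable def detN (W : WeilCohomology.{u, v} ops) (X : 𝒱.Obj) (n : ℕ)
    (a : Fin (n + 1) → W.H X) : W.H (pw X n) :=
  ∑ σ : Equiv.Perm (Fin (n + 1)), ((σ.sign : ℤ) : W.K) • boxN W X n fun i => a (σ i)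

/-- The external product of two classes. -/
noncomputable def box (W : WeilCohomology.{u, v} ops) (Y Z : 𝒱.Obj) (a : W.H Y) (b : W.H Z) :
    W.H (Y.prod Z) :=
  W.map (fst Y Z) a * W.map (snd Y Z) b

end Pool.Agent.V1144.Dt
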