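import Pool.Agent.V1144.Dt.Sys
import Pool.Agent.V1144.Dt.Defs

/-!
# External products and determinants
-/

open CategoryTheory AlgebraicGeometry Finset

set_option linter.unusedSectionVars false
set_option linter.unusedVariables false

universe u v

namespace Pool.Agent.V1144.Dt

open Pool.Agent.H914 Pool.Agent.H914.VarClass Pool.Agent.H914.VarClass.Obj
  Pool.Agent.H914.WeilCohomology Pool.Agent.H281R3.HT Pool.Agent.Y129

variable {k : Type u} [Field k] {𝒱 : VarClass k} {ops : CycleOps 𝒱}
  {W : WeilCohomology.{u, v} ops} {X Y Z : 𝒱.Obj}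

lemma sgn_mul {s t : W.K} (hs : s = 1 ∨ s = -1) (ht : t = 1 ∨ t = -1) :
    s * t = 1 ∨ s * t = -1 := by
  rcases hs with rfl | rfl <;> rcases ht with rfl | rfl <;> simp

lemma neg_one_pow_or (n : ℕ) : (-1 : W.K) ^ n = 1 ∨ (-1 : W.K) ^ n = -1 :=
  neg_one_pow_eq_or W.K n

lemma boxN_zero (a : Fin 1 → W.H X) : boxN W X 0 a = a 0 := by
  have h1 : boxN W X 0 a = (List.ofFn fun i : Fin 1 => W.map (𝟙 X) (a i)).prod := rfl
  rw [h1, List.ofFn_succ, List.ofFn_zero, List.prod_cons, List.prod_nil, W.map_id]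
  exact mul_one _

lemma boxN_succ (n : ℕ) (a : Fin (n + 2) → W.H X) :
    boxN W X (n + 1) a = box W X (pw X n) (a 0) (boxN W X n fun i => a i.succ) := by
  rw [boxN, boxN, List.ofFn_succ, List.prod_cons, box, map_list_prod, List.map_ofFn]
  congr 2
  apply congrArg List.ofFn
  funext i
  exact W.map_comp (snd X (pw X n)) (pj X n i) _

lemma box_mem {p q : ℕ} {a : W.H Y} {b : W.H Z} (ha : a ∈ W.gr Y p) (hb : b ∈ W.gr Z q) :
    box W Y Z a b ∈ W.gr (Y.prod Z) (p + q) :=
  W.mul_mem (W.map_mem _ ha) (W.map_mem _ hb)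

lemma boxN_mem {d : ℕ} (n : ℕ) {a : Fin (n + 1) → W.H X} (ha : ∀ i, a i ∈ W.gr X d) :
    boxN W X n a ∈ W.gr (pw X n) ((n + 1) * d) := by
  induction n with
  | zero => rw [boxN_zero, zero_add, one_mul]; exact ha 0
  | succ n ih =>
    rw [boxN_succ]
    have := box_mem (ha 0) (ih fun i => ha i.succ)
    rwa [show d + (n + 1) * d = (n + 1 + 1) * d by ring] at this

/-- The external product as a multilinear map. -/
noncomputable def boxML (W : WeilCohomology.{u, v} ops) (X : 𝒱.Obj) (n : ℕ) :
    MultilinearMap W.K (fun _ : Fin (n + 1) => W.H X) (W.H (pw X n)) :=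
  (MultilinearMap.mkPiAlgebraFin W.K (n + 1) (W.H (pw X n))).compLinearMap
    fun p => (W.map (pj X n p)).toLinearMap

lemma boxML_apply (n : ℕ) (a : Fin (n + 1) → W.H X) : boxML W X n a = boxN W X n a := by
  rw [boxML, MultilinearMap.compLinearMap_apply, MultilinearMap.mkPiAlgebraFin_apply]
  rfl

/-- The determinant as an alternating map. -/
noncomputable def detA (W : WeilCohomology.{u, v} ops) (X : 𝒱.Obj) (n : ℕ) :
    W.H X [⋀^Fin (n + 1)]→ₗ[W.K] W.H (pw X n) :=
  MultilinearMap.alternatization (boxML W X n)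

lemma detA_apply (n : ℕ) (a : Fin (n + 1) → W.H X) : detA W X n a = detN W X n a := by
  rw [detA, MultilinearMap.alternatization_apply, detN]
  refine Finset.sum_congr rfl fun σ _ => ?_
  rw [MultilinearMap.domDomCongr_apply, boxML_apply]
  rcases Int.units_eq_one_or (Equiv.Perm.sign σ) with h | h <;> simp [h]

lemma detN_mem {d : ℕ} (n : ℕ) {a : Fin (n + 1) → W.H X} (ha : ∀ i, a i ∈ W.gr X d) :
    detN W X n a ∈ W.gr (pw X n) ((n + 1) * d) :=
  Submodule.sum_mem _ fun σ _ => Submodule.smul_mem _ _ (boxN_mem n fun i => ha _)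

/-- The determinants of two bases of a subspace are proportional. -/
lemma detN_basis {U : Submodule W.K (W.H X)} (n : ℕ) (a b : Module.Basis (Fin (n + 1)) W.K U) :
    detN W X n (fun i => (b i : W.H X)) = a.det b • detN W X n fun i => (a i : W.H X) := by
  have h1 : (detA W X n).compLinearMap U.subtype =
      (LinearMap.toSpanSingleton W.K (W.H (pw X n)) (detN W X n fun i => (a i : W.H X))).compAlternatingMap
        a.det := by
    apply Module.Basis.ext_alternating a
    intro v hv
    have hbij : Function.Bijective v := hv.bijective_of_finite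
    let σ : Equiv.Perm (Fin (n + 1)) := Equiv.ofBijective v hbij
    have h2 : (fun i => a (v i)) = a ∘ σ := rfl
    rw [h2, AlternatingMap.map_perm, AlternatingMap.map_perm, AlternatingMap.compLinearMap_apply,
      LinearMap.compAlternatingMap_apply, Module.Basis.det_self, LinearMap.toSpanSingleton_apply,
      one_smul, ← detA_apply]
    rfl
  have h3 := congrArg (fun f => f b) h1
  beta_reduce at h3
  rw [AlternatingMap.compLinearMap_apply, LinearMap.compAlternatingMap_apply,
    LinearMap.toSpanSingleton_apply] at h3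
  rw [← h3, ← detA_apply]
  rfl

/-! ### Signs -/

/-- The sign of a permutation of classes of the same degree. -/
lemma prod_perm_sign {d m : ℕ} {A : Fin m → W.H Y} (hA : ∀ i, A i ∈ W.gr Y d)
    (σ : Equiv.Perm (Fin m)) :
    (List.ofFn fun i => A (σ i)).prod = (((σ.sign : ℤ) : W.K) ^ d) • (List.ofFn A).prod := by
  rcases Nat.even_or_odd d with hd | hd
  · have h1 : ((σ.sign : ℤ) : W.K) ^ d = 1 := by
      rcases Int.units_eq_one_or σ.sign with h | h
      · rw [h]; simp
      · rw [h]; simp [hd.neg_one_pow]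
    rw [h1, one_smul]
    refine List.Perm.prod_eq' (Equiv.Perm.ofFn_comp_perm σ A) ?_
    rw [List.pairwise_iff_getElem]
    intro i j hi hj hij
    obtain ⟨e, he⟩ := hd
    have h2 := fun l => hA l
    rw [show d = 2 * e by omega] at h2
    simp only [List.getElem_ofFn]
    exact W.even_comm (h2 _) _
  · have hsq : ∀ x : W.gr Y d, (x : W.H Y) * x = 0 := by
      intro x
      have h1 := W.comm x.2 x.2
      rw [(hd.mul hd).neg_one_pow, neg_one_smul] at h1
      have h2 : (2 : W.K) • ((x : W.H Y) * x) = 0 := by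
        rw [two_smul]
        nth_rewrite 1 [h1]
        exact neg_add_cancel _
      exact (smul_eq_zero.1 h2).resolve_left two_ne_zero
    let φ : ExteriorAlgebra W.K (W.gr Y d) →ₐ[W.K] W.H Y :=
      ExteriorAlgebra.lift W.K ⟨(W.gr Y d).subtype, hsq⟩
    have hφ : ∀ B : Fin m → W.gr Y d,
        (List.ofFn fun i => (B i : W.H Y)).prod = φ (ExteriorAlgebra.ιMulti W.K m B) := by
      intro B
      rw [ExteriorAlgebra.ιMulti_apply, map_list_prod, List.map_ofFn]
      congr 2
      funext i
      exact (ExteriorAlgebra.lift_ι_apply W.K (W.gr Y d).subtype hsq (B i)).symm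
    let B : Fin m → W.gr Y d := fun i => ⟨A i, hA i⟩
    have h1 : (List.ofFn fun i => A (σ i)).prod = φ (ExteriorAlgebra.ιMulti W.K m (B ∘ σ)) :=
      hφ (B ∘ σ)
    have h2 : (List.ofFn A).prod = φ (ExteriorAlgebra.ιMulti W.K m B) := hφ B
    rw [h1, h2, AlternatingMap.map_perm]
    rcases Int.units_eq_one_or σ.sign with h | h
    · rw [h]; simp
    · rw [h]; simp [hd.neg_one_pow]

lemma list_mem {d m : ℕ} {A : Fin m → W.H Y} (hA : ∀ i, A i ∈ W.gr Y d) :
    (List.ofFn A).prod ∈ W.gr Y (m * d) := by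
  induction m with
  | zero => simpa using W.one_mem Y
  | succ m ih =>
    rw [List.ofFn_succ, List.prod_cons]
    have := W.mul_mem (hA 0) (ih fun i => hA i.succ)
    rwa [show d + m * d = (m + 1) * d by ring] at this

/-- The product of products. -/
lemma prod_mul (W : WeilCohomology.{u, v} ops) (Y : 𝒱.Obj) (d e m : ℕ) :
    ∃ s : W.K, (s = 1 ∨ s = -1) ∧ ∀ A B : Fin m → W.H Y, (∀ i, A i ∈ W.gr Y d) →
      (∀ i, B i ∈ W.gr Y e) → (List.ofFn fun i => A i * B i).prod =
        s • ((List.ofFn A).prod * (List.ofFn B).prod) := by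
  induction m with
  | zero => exact ⟨1, Or.inl rfl, fun A B _ _ => by simp⟩
  | succ m ih =>
    obtain ⟨s, hs, hall⟩ := ih
    refine ⟨s * (-1) ^ (e * (m * d)), sgn_mul hs (neg_one_pow_or _), fun A B hA hB => ?_⟩
    rw [List.ofFn_succ, List.prod_cons, hall _ _ (fun i => hA i.succ) (fun i => hB i.succ),
      List.ofFn_succ, List.prod_cons, List.ofFn_succ, List.prod_cons]
    have h1 := W.comm (hB 0) (list_mem fun i => hA i.succ)
    rw [mul_smul_comm, mul_smul]
    congr 1
    calc A 0 * B 0 * ((List.ofFn fun i => A i.succ).prod * (List.ofFn fun i => B i.succ).prod)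
        = A 0 * (B 0 * (List.ofFn fun i => A i.succ).prod) *
            (List.ofFn fun i => B i.succ).prod := by noncomm_ring
      _ = _ := by
        rw [h1, mul_smul_comm, smul_mul_assoc]
        congr 1
        noncomm_ring

end Pool.Agent.V1144.Dt
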