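import Pool.Agent.V1144.Dt.BDefs

/-!
# Künneth projectors and determinants: definitions
-/

open CategoryTheory AlgebraicGeometry

universe u v

namespace Pool.Agent.V1144.Dt

open Pool.Agent.H914 Pool.Agent.H914.VarClass Pool.Agent.H914.VarClass.Obj
  Pool.Agent.H914.WeilCohomology Pool.Agent.Y129

variable {k : Type u} [Field k] {𝒱 : VarClass k} {ops : CycleOps 𝒱}

/-- The Künneth component `π^i` of the diagonal of `X` is a linear combination of classes of cycles
with coefficients in the coefficient field. -/
def ProjectorSpan (W : WeilCohomology.{u, v} ops) (X : 𝒱.Obj) (i : ℕ) : Prop :=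
  ∃ γ ∈ spanCycles W (X.prod X) (X.dim : ℤ), IsProjector (W.gr X) i (W.corr γ)

/-- The Künneth component `π^i` of the diagonal of `X` is the class of a cycle with rational
coefficients. -/
def ProjectorRational (W : WeilCohomology.{u, v} ops) (X : 𝒱.Obj) (i : ℕ) : Prop :=
  ∃ P, (X.prod X).IsCyc X.dim P ∧ IsProjector (W.gr X) i (W.corr (W.cl (X.prod X) P))

/-- The product of the lines `det H^(2 dim X - i)(X)` and `det H^i(X)`, a line in the cohomology of
the product of `2 b` copies of `X`, where `b = dim H^i(X)`, is spanned by a linear combination of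
classes of cycles with coefficients in the coefficient field. -/
def DetProductSpan (W : WeilCohomology.{u, v} ops) (X : 𝒱.Obj) (i : ℕ) : Prop :=
  ∀ (n : ℕ) (a b : Fin (n + 1) → W.H X), IsBasisOf (W.gr X (2 * X.dim - i)) a →
    IsBasisOf (W.gr X i) b →
      detBox W X n a b ∈ spanCycles W ((pw X n).prod (pw X n)) (((n + 1) * X.dim : ℕ) : ℤ)

/-- The product of the lines `det H^(2 dim X - i)(X)` and `det H^i(X)` is spanned by the class of a
cycle with rational coefficients. -/
def DetProductRational (W : WeilCohomology.{u, v} ops) (X : 𝒱.Obj) (i : ℕ) : Prop :=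
  ∀ (n : ℕ) (a b : Fin (n + 1) → W.H X), IsBasisOf (W.gr X (2 * X.dim - i)) a →
    IsBasisOf (W.gr X i) b →
      IsRationalLine W ((pw X n).prod (pw X n)) ((n + 1) * X.dim) (detBox W X n a b)

end Pool.Agent.V1144.Dt
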