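import Pool.Agent.V1144.Dt.NMain

/-!
# The conjecture C and the determinants of the cohomology
-/

open CategoryTheory AlgebraicGeometry Finset

set_option linter.unusedSectionVars false
set_option linter.unusedVariables false

universe u v

namespace Pool.Agent.V1144.Dt

open Pool.Agent.H914 Pool.Agent.H914.VarClass Pool.Agent.H914.VarClass.Obj
  Pool.Agent.H914.WeilCohomology Pool.Agent.H281R3.HT Pool.Agent.Y129

variable {k : Type u} [Field k] {𝒱 : VarClass k} {ops : CycleOps 𝒱}
  {W : WeilCohomology.{u, v} ops} {X Y Z : 𝒱.Obj}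

lemma exists_dual_one {i j n : ℕ} (hij : i + j = 2 * X.dim)
    (a : Module.Basis (Fin (n + 1)) W.K (W.gr X i)) :
    ∃ b : Module.Basis (Fin (n + 1)) W.K (W.gr X j), ∀ l m,
      W.tr X ((a l : W.H X) * (b m : W.H X) * 1) = if l = m then 1 else 0 :=
  exists_dual (W := W) (X := X) (i := i) (j := j) (η := 1)
    (fun y hy h => eq_zero_of_tr (i := i) (j := j) hij hy (fun x hx => by
      have := h x hx
      rwa [mul_one] at this))
    (le_antisymm (betti_symm_le W (by omega)) (betti_symm_le W (by omega))) a

/-- The projector given by dual bases. -/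
lemma projector_of_theta {i j n : ℕ} (hij : j + i = 2 * X.dim)
    {a : Fin (n + 1) → W.H X} (ha : ∀ l, a l ∈ W.gr X j)
    (b : Module.Basis (Fin (n + 1)) W.K (W.gr X i))
    (hdual : ∀ l m, W.tr X (a l * (b m : W.H X) * 1) = if l = m then 1 else 0) :
    IsProjector (W.gr X) i (W.corr ((-1 : W.K) ^ (i * i) • ∑ l, box W X X (a l) (b l))) := by
  intro l z hz
  rw [corr_smul, LinearMap.smul_apply, corr_sum_box _ _ (fun m => (b m).2) hz]
  split_ifs with h
  · subst h
    have h1 := sum_dual (i := j) (η := (1 : W.H X)) (a := a) b hdual hz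
    simp only [mul_one] at h1
    rw [h1, smul_smul, ← pow_add, ← two_mul, pow_mul, neg_one_sq, one_pow, one_smul]
  · rw [Finset.sum_eq_zero, smul_zero, smul_zero]
    intro m _
    rw [W.tr_eq_zero (W.mul_mem (ha m) hz) (by omega), zero_smul]

lemma projector_of_bot {i : ℕ} (h : W.gr X i = ⊥) :
    IsProjector (W.gr X) i (W.corr (0 : W.H (X.prod X))) := by
  intro l z hz
  rw [corr_zero, LinearMap.zero_apply]
  split_ifs with hl
  · subst hl
    rw [h] at hz
    exact ((Submodule.mem_bot _).1 hz).symm
  · rfl

theorem projectorSpan_iff {i : ℕ} (hi : i ≤ 2 * X.dim) :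
    ProjectorSpan W X i ↔ DetProductSpanB W X i := by
  constructor
  · intro hC n a b
    obtain ⟨b', hb'⟩ := exists_dual_one (W := W) (X := X) (i := 2 * X.dim - i) (j := i)
      (by omega) a
    have h1 := kunneth_det hC (i := 2 * X.dim - i) (by omega) (fun l => (a l : W.H X))
      (fun l => (a l).2) b' hb'
    have h2 := det_of_theta (spanSys W) (i := 2 * X.dim - i) (j := i) (p := X.dim) (by omega)
      (fun l => (a l).2) (fun l => (b' l).2) h1
    have h4 := detBox_smul_right n _ (fun l => (a l : W.H X)) _ _ (detN_basis n b b')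
    have h5 : detBox W X n (fun l => a l) (fun l => b l) =
        (b.det b')⁻¹ • detBox W X n (fun l => a l) (fun l => b' l) := by
      rw [h4, smul_smul, inv_mul_cancel₀ (det_ne_zero b b'), one_smul]
    rw [h5]
    exact Submodule.smul_mem _ _ h2
  · intro h
    rcases Nat.eq_zero_or_pos (W.betti X i) with hb | hb
    · exact ⟨0, Submodule.zero_mem _, projector_of_bot (Submodule.finrank_eq_zero.1 hb)⟩
    · have hsymm : W.betti X i = W.betti X (2 * X.dim - i) :=
        le_antisymm (betti_symm_le W (by omega)) (betti_symm_le W (by omega))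
      obtain ⟨n, hn⟩ : ∃ n, W.betti X (2 * X.dim - i) = n + 1 := ⟨W.betti X i - 1, by omega⟩
      have hn' : Module.finrank W.K (W.gr X (2 * X.dim - i)) = n + 1 := hn
      let a := Module.finBasisOfFinrankEq W.K (W.gr X (2 * X.dim - i)) hn'
      obtain ⟨b, hb⟩ := exists_dual_one (W := W) (X := X) (i := 2 * X.dim - i) (j := i)
        (by omega) a
      have h1 := theta_of_det (spanSys W) (i := 2 * X.dim - i) (j := i) (c := 0) (p := X.dim)
        (by omega) (by omega) (spanSys W).one (fun l => (a l).2) (fun l => (b l).2) hb (h n a b)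
      exact ⟨_, Submodule.smul_mem _ ((-1 : W.K) ^ (i * i)) h1,
        projector_of_theta (by omega) (fun l => (a l).2) b hb⟩

theorem projectorRational_iff {i : ℕ} (hi : i ≤ 2 * X.dim) :
    ProjectorRational W X i ↔ DetProductRationalB W X i := by
  constructor
  · rintro ⟨P, hP, hproj⟩ n a b
    obtain ⟨b', hb'⟩ := exists_dual_one (W := W) (X := X) (i := 2 * X.dim - i) (j := i)
      (by omega) a
    have h1 := theta_mem_alg (i := 2 * X.dim - i) (j := i) (n := n) (q := X.dim) (by omega)
      (a := fun l => a l) (a' := fun l => b' l)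
      (fun l => (a l).2) (fun l => (b' l).2) (γ := W.cl _ P) ⟨P, hP, rfl⟩ rfl (by
        intro l hl z hz
        rw [hproj l z hz, if_neg (by omega)]) (by
        intro z hz
        have hj : 2 * X.dim - (2 * X.dim - i) = i := by omega
        rw [hj] at hz
        rw [hproj i z hz, if_pos rfl]
        have := sum_dual (i := i) (η := (1 : W.H X)) (a := fun l => (a l : W.H X)) b' hb' hz
        simp only [mul_one] at this
        exact this.symm)
    obtain ⟨z, hz, hz'⟩ := det_of_theta (ratSys W) (i := 2 * X.dim - i) (j := i) (p := X.dim)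
      (by omega) (fun l => (a l).2) (fun l => (b' l).2) h1
    exact ⟨b.det b', det_ne_zero b b', z, hz,
      hz'.trans (detBox_smul_right n _ (fun l => (a l : W.H X)) _ _ (detN_basis n b b'))⟩
  · intro h
    rcases Nat.eq_zero_or_pos (W.betti X i) with hb | hb
    · refine ⟨0, SmVar.IsCyc.zero _ _, ?_⟩
      rw [map_zero]
      exact projector_of_bot (Submodule.finrank_eq_zero.1 hb)
    · have hsymm : W.betti X i = W.betti X (2 * X.dim - i) :=
        le_antisymm (betti_symm_le W (by omega)) (betti_symm_le W (by omega))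
      obtain ⟨n, hn⟩ : ∃ n, W.betti X (2 * X.dim - i) = n + 1 := ⟨W.betti X i - 1, by omega⟩
      have hn' : Module.finrank W.K (W.gr X (2 * X.dim - i)) = n + 1 := hn
      let a := Module.finBasisOfFinrankEq W.K (W.gr X (2 * X.dim - i)) hn'
      obtain ⟨b, hb⟩ := exists_dual_one (W := W) (X := X) (i := 2 * X.dim - i) (j := i)
        (by omega) a
      obtain ⟨r, hr, z, hz, hzr⟩ := h n a b
      -- the scalar is rational
      have h1 : W.tr (pw X n) (W.map (diag (pw X n)) (W.cl _ z)) =
          ((pw X n).V.degCycle (ops.pull (diag (pw X n)) z) : W.K) := by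
        rw [← W.cl_pull]
        apply W.tr_cl
        rw [pw_dim]
        exact ops.pull_mem _ hz
      have h2 : W.map (diag (pw X n)) (detBox W X n (fun l => a l) (fun l => b l)) =
          detN W X n (fun l => (a l : W.H X)) * detN W X n (fun l => (b l : W.H X)) := by
        have e1 : diag (pw X n) ≫ fst (pw X n) (pw X n) = 𝟙 (pw X n) := Obj.lift_fst _ _
        have e2 : diag (pw X n) ≫ snd (pw X n) (pw X n) = 𝟙 (pw X n) := Obj.lift_snd _ _
        rw [detBox, box, map_mul, ← W.map_comp, ← W.map_comp, e1, e2, W.map_id, W.map_id]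
      obtain ⟨s, hs, hst⟩ := tr_det (W := W) (X := X) (fun l => (a l).2) (fun l => (b l).2)
        (fun l m => by
          have := hb l m
          rwa [mul_one] at this)
      rw [hzr, map_smul, map_smul, h2, hst, smul_eq_mul] at h1
      obtain ⟨s', rfl⟩ : ∃ s' : ℚ, (s' : W.K) = s := by
        rcases hs with rfl | rfl
        · exact ⟨1, by simp⟩
        · exact ⟨-1, by simp⟩
      have hs0 : (s' : W.K) ≠ 0 := by rcases hs with h | h <;> rw [h] <;> simp
      have hf0 : (((n + 1).factorial : ℕ) : W.K) ≠ 0 := by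
        exact_mod_cast (n + 1).factorial_ne_zero
      set q := (pw X n).V.degCycle (ops.pull (diag (pw X n)) z) with hq
      have hr' : r = ((q / (s' * (n + 1).factorial) : ℚ) : W.K) := by
        push_cast
        rw [eq_div_iff (mul_ne_zero hs0 hf0), ← h1]
      have h3 : detBox W X n (fun l => a l) (fun l => b l) ∈
          (ratSys W).S ((pw X n).prod (pw X n)) ((n + 1) * X.dim) := by
        have e1 : detBox W X n (fun l => a l) (fun l => b l) =
            (((q / (s' * (n + 1).factorial))⁻¹ : ℚ) : W.K) • W.cl _ z := by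
          rw [hzr, smul_smul, Rat.cast_inv, ← hr', inv_mul_cancel₀ hr, one_smul]
        rw [e1]
        exact alg_smul _ ⟨z, hz, rfl⟩
      have h4 := theta_of_det (ratSys W) (i := 2 * X.dim - i) (j := i) (c := 0) (p := X.dim)
        (by omega) (by omega) (ratSys W).one (fun l => (a l).2) (fun l => (b l).2) hb h3
      have h5 : (-1 : W.K) ^ (i * i) • ∑ l, box W X X (a l) (b l) ∈
          (ratSys W).S (X.prod X) X.dim := (ratSys W).sgn (neg_one_pow_or _) h4
      obtain ⟨P, hP, hPc⟩ := h5
      refine ⟨P, hP, ?_⟩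
      rw [hPc]
      exact projector_of_theta (by omega) (fun l => (a l).2) b hb

end Pool.Agent.V1144.Dt
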