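import Pool.Agent.V1144.Dt.Tr

/-!
# Cramer's rule
-/

open CategoryTheory AlgebraicGeometry Finset

set_option linter.unusedSectionVars false
set_option linter.unusedVariables false

universe u v

namespace Pool.Agent.V1144.Dt

open Pool.Agent.H914 Pool.Agent.H914.VarClass Pool.Agent.H914.VarClass.Obj
  Pool.Agent.H914.WeilCohomology Pool.Agent.H281R3.HT Pool.Agent.Y129

variable {k : Type u} [Field k] {𝒱 : VarClass k} {ops : CycleOps 𝒱}
  {W : WeilCohomology.{u, v} ops} {X Y Z : 𝒱.Obj}

lemma detN_zero (a : Fin 1 → W.H X) : detN W X 0 a = a 0 := by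
  rw [detN]
  have h1 : ∀ σ : Equiv.Perm (Fin 1), σ = 1 := fun σ => Subsingleton.elim _ _
  rw [Fintype.sum_eq_single 1 (fun σ hσ => absurd (h1 σ) hσ)]
  rw [boxN_zero]
  simp

lemma box_add_left (a a' : W.H Y) (b : W.H Z) :
    box W Y Z (a + a') b = box W Y Z a b + box W Y Z a' b := by
  rw [box, box, box, map_add, add_mul]

lemma box_smul_left (r : W.K) (a : W.H Y) (b : W.H Z) :
    box W Y Z (r • a) b = r • box W Y Z a b := by
  rw [box, box, map_smul, smul_mul_assoc]

lemma box_smul_right (r : W.K) (a : W.H Y) (b : W.H Z) :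
    box W Y Z a (r • b) = r • box W Y Z a b := by
  rw [box, box, map_smul, mul_smul_comm]

lemma box_sum_left {ι : Type*} (s : Finset ι) (f : ι → W.H Y) (b : W.H Z) :
    box W Y Z (∑ i ∈ s, f i) b = ∑ i ∈ s, box W Y Z (f i) b := by
  rw [box, map_sum, Finset.sum_mul]
  rfl

lemma box_sum_right {ι : Type*} (s : Finset ι) (a : W.H Y) (f : ι → W.H Z) :
    box W Y Z a (∑ i ∈ s, f i) = ∑ i ∈ s, box W Y Z a (f i) := by
  rw [box, map_sum, Finset.mul_sum]
  rfl

lemma box_det (n : ℕ) (a a' : Fin (n + 1) → W.H X) :
    box W (pw X n) (pw X n) (detN W X n a) (detN W X n a') =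
      ∑ σ : Equiv.Perm (Fin (n + 1)), ∑ τ : Equiv.Perm (Fin (n + 1)),
        (((σ.sign : ℤ) : W.K) * ((τ.sign : ℤ) : W.K)) •
          box W (pw X n) (pw X n) (boxN W X n fun i => a (σ i)) (boxN W X n fun i => a' (τ i)) := by
  rw [detN, box_sum_left]
  refine Finset.sum_congr rfl fun σ _ => ?_
  rw [box_smul_left, detN, box_sum_right, Finset.smul_sum]
  refine Finset.sum_congr rfl fun τ _ => ?_
  rw [box_smul_right, smul_smul]

lemma sum_perm_zero {M : Type*} [AddCommMonoid M] (n : ℕ) (f : Fin (n + 1) → M) :
    ∑ σ : Equiv.Perm (Fin (n + 1)), f (σ 0) = n.factorial • ∑ l, f l := by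
  rw [← Equiv.sum_comp (Equiv.Perm.decomposeFin (n := n)).symm]
  rw [Fintype.sum_prod_type]
  simp only [Equiv.Perm.decomposeFin_symm_apply_zero, Finset.sum_const, Finset.card_univ,
    Fintype.card_perm, Fintype.card_fin]
  rw [Finset.smul_sum]

/-- **Cramer's rule**: the inverse of a pairing is the contraction of the product of the
determinants with the powers of the pairing. -/
theorem theta_of_det (S : AlgSys W) {i j c p n : ℕ} (hij : i + j = 2 * p)
    (hpc : p + c = X.dim) {η : W.H X} (hη : η ∈ S.S X c) {a a' : Fin (n + 1) → W.H X}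
    (ha : ∀ l, a l ∈ W.gr X i) (ha' : ∀ l, a' l ∈ W.gr X j)
    (hdual : ∀ l m, W.tr X (a l * a' m * η) = if l = m then 1 else 0)
    (hdet : box W (pw X n) (pw X n) (detN W X n a) (detN W X n a') ∈
      S.S ((pw X n).prod (pw X n)) ((n + 1) * p)) :
    ∑ l, box W X X (a l) (a' l) ∈ S.S (X.prod X) p := by
  classical
  cases n with
  | zero =>
    rw [Fin.sum_univ_succ, Finset.univ_eq_empty, Finset.sum_empty, add_zero]
    rw [detN_zero, detN_zero, zero_add, one_mul] at hdet
    exact hdet
  | succ n =>
    obtain ⟨s, hs, hall⟩ := contrP_boxN W X i j c n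
    have h1 := contrP_mem S hη hpc hdet
    have h2 : contrP W X n η (box W (pw X (n + 1))
      (pw X (n + 1)) (detN W X (n + 1) a) (detN W X (n + 1) a')) =
        (s * (((n + 1).factorial : ℕ) : W.K)) • ∑ l, box W X X (a l) (a' l) := by
      have e2 : ∀ σ : Equiv.Perm (Fin (n + 2)),
          contrP W X n η (∑ τ : Equiv.Perm (Fin (n + 2)),
            (((σ.sign : ℤ) : W.K) * ((τ.sign : ℤ) : W.K)) •
              box W (pw X (n + 1)) (pw X (n + 1)) (boxN W X (n + 1) fun i => a (σ i))
                (boxN W X (n + 1) fun i => a' (τ i))) = s • box W X X (a (σ 0)) (a' (σ 0)) := by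
        intro σ
        rw [map_sum, Finset.sum_eq_single σ]
        · rw [map_smul, hall (fun i => a (σ i)) (fun i => a' (σ i)) (fun l => ha _)
            (fun l => ha' _) η (S.deg hη)]
          have e5 : ∏ l : Fin (n + 1), W.tr X (a (σ l.succ) * a' (σ l.succ) * η) = 1 :=
            Finset.prod_eq_one fun l _ => by rw [hdual, if_pos rfl]
          rw [e5, mul_one, smul_smul]
          congr 1
          rcases Int.units_eq_one_or σ.sign with h | h <;> simp [h]
        · intro τ _ hτ
          rw [map_smul, hall (fun i => a (σ i)) (fun i => a' (τ i)) (fun l => ha _)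
            (fun l => ha' _) η (S.deg hη)]
          have e5 : ∃ l : Fin (n + 1), σ l.succ ≠ τ l.succ := by
            by_contra hcon
            push Not at hcon
            apply hτ
            apply Equiv.ext
            have h0 : ∀ l : Fin (n + 1), (σ⁻¹ * τ) l.succ = l.succ := by
              intro l
              rw [Equiv.Perm.mul_apply, ← hcon l]
              exact σ.symm_apply_apply _
            have h00 : (σ⁻¹ * τ) 0 = 0 := by
              rcases Fin.eq_zero_or_eq_succ ((σ⁻¹ * τ) 0) with h | ⟨l, h⟩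
              · exact h
              · have := (σ⁻¹ * τ).injective (h.trans (h0 l).symm)
                exact absurd this (Fin.succ_ne_zero l).symm
            have h000 : σ 0 = τ 0 := by
              rw [Equiv.Perm.mul_apply, Equiv.Perm.inv_eq_iff_eq] at h00
              exact h00.symm
            intro l
            refine Fin.cases h000.symm (fun l => (hcon l).symm) l
          obtain ⟨l, hl⟩ := e5
          have e6 : ∏ l : Fin (n + 1), W.tr X (a (σ l.succ) * a' (τ l.succ) * η) = 0 :=
            Finset.prod_eq_zero (Finset.mem_univ l) (by rw [hdual, if_neg hl])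
          rw [e6, mul_zero, zero_smul, smul_zero]
        · intro h
          exact absurd (Finset.mem_univ _) h
      rw [box_det, map_sum, Finset.sum_congr rfl fun σ _ => e2 σ, ← Finset.smul_sum,
        sum_perm_zero (n + 1) fun l => box W X X (a l) (a' l), mul_smul, Nat.cast_smul_eq_nsmul]
    rw [h2, mul_smul] at h1
    have h4 : (((n + 1).factorial : ℕ) : W.K) • ∑ l, box W X X (a l) (a' l) ∈
        S.S (X.prod X) p := by
      have := S.sgn hs h1
      rw [smul_smul] at this
      have hss : s * s = 1 := by rcases hs with rfl | rfl <;> simp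
      rwa [hss, one_smul] at this
    have h5 := S.rat ((((n + 1).factorial : ℕ) : ℚ)⁻¹) h4
    rw [smul_smul] at h5
    have h6 : ((((((n + 1).factorial : ℕ) : ℚ)⁻¹ : ℚ)) : W.K) *
        (((n + 1).factorial : ℕ) : W.K) = 1 := by
      rw [Rat.cast_inv, Rat.cast_natCast]
      exact inv_mul_cancel₀ (by exact_mod_cast (n + 1).factorial_ne_zero)
    rwa [h6, one_smul] at h5

end Pool.Agent.V1144.Dt
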