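import Pool.Agent.V1144.Dt.Cra

/-!
# The determinant of a pairing
-/

open CategoryTheory AlgebraicGeometry Finset

set_option linter.unusedSectionVars false
set_option linter.unusedVariables false

universe u v

namespace Pool.Agent.V1144.Dt

open Pool.Agent.H914 Pool.Agent.H914.VarClass Pool.Agent.H914.VarClass.Obj
  Pool.Agent.H914.WeilCohomology Pool.Agent.H281R3.HT Pool.Agent.Y129

variable {k : Type u} [Field k] {𝒱 : VarClass k} {ops : CycleOps 𝒱}
  {W : WeilCohomology.{u, v} ops} {X Y Z : 𝒱.Obj}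

lemma map_lift_box {T : 𝒱.Obj} (f : T ⟶ Y) (g : T ⟶ Z) (a : W.H Y) (b : W.H Z) :
    W.map (Obj.lift f g) (box W Y Z a b) = W.map f a * W.map g b := by
  rw [box, map_mul, ← W.map_comp, ← W.map_comp, Obj.lift_fst, Obj.lift_snd]

/-- The morphism `(x, y) ↦ (x_l, y_(σ l))` on the product of two powers. -/
noncomputable def psi (X : 𝒱.Obj) (n : ℕ) (σ : Equiv.Perm (Fin (n + 1))) (l : Fin (n + 1)) :
    (pw X n).prod (pw X n) ⟶ X.prod X :=
  Obj.lift (fst (pw X n) (pw X n) ≫ pj X n l) (snd (pw X n) (pw X n) ≫ pj X n (σ l))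

/-- The products of the copies of a tensor. -/
lemma prod_psi (W : WeilCohomology.{u, v} ops) (X : 𝒱.Obj) (i j n : ℕ) :
    ∃ s : W.K, (s = 1 ∨ s = -1) ∧ ∀ a a' : Fin (n + 1) → W.H X, (∀ l, a l ∈ W.gr X i) →
      (∀ l, a' l ∈ W.gr X j) → ∀ σ : Equiv.Perm (Fin (n + 1)),
        (List.ofFn fun l => W.map (psi X n σ l) (∑ m, box W X X (a m) (a' m))).prod =
          (s * ((σ.sign : ℤ) : W.K) ^ j) • ∑ x : Fin (n + 1) → Fin (n + 1),
            box W (pw X n) (pw X n) (boxN W X n fun l => a (x l))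
              (boxN W X n fun l => a' (x (σ⁻¹ l))) := by
  obtain ⟨s, hs, hall⟩ := prod_mul W ((pw X n).prod (pw X n)) i j (n + 1)
  refine ⟨s, hs, fun a a' ha ha' σ => ?_⟩
  set A : Fin (n + 1) → Fin (n + 1) → W.H ((pw X n).prod (pw X n)) :=
    fun l m => W.map (fst (pw X n) (pw X n)) (W.map (pj X n l) (a m)) with hA
  set B : Fin (n + 1) → Fin (n + 1) → W.H ((pw X n).prod (pw X n)) :=
    fun l m => W.map (snd (pw X n) (pw X n)) (W.map (pj X n (σ l)) (a' m)) with hB
  have h1 : ∀ l, W.map (psi X n σ l) (∑ m, box W X X (a m) (a' m)) = ∑ m, A l m * B l m := by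
    intro l
    rw [map_sum]
    refine Finset.sum_congr rfl fun m _ => ?_
    rw [psi, map_lift_box, W.map_comp, W.map_comp]
  have h2 : (List.ofFn fun l => W.map (psi X n σ l) (∑ m, box W X X (a m) (a' m))).prod =
      ∑ x : Fin (n + 1) → Fin (n + 1), (List.ofFn fun l => A l (x l) * B l (x l)).prod := by
    have e1 : (List.ofFn fun l => W.map (psi X n σ l) (∑ m, box W X X (a m) (a' m))) =
        List.ofFn fun l => ∑ m, A l m * B l m := congrArg List.ofFn (funext h1)
    rw [e1]
    have e2 := (MultilinearMap.mkPiAlgebraFin W.K (n + 1)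
      (W.H ((pw X n).prod (pw X n)))).map_sum (fun l m => A l m * B l m)
    simp only [MultilinearMap.mkPiAlgebraFin_apply] at e2
    exact e2
  rw [h2, Finset.smul_sum]
  refine Finset.sum_congr rfl fun x _ => ?_
  rw [hall _ _ (fun l => W.map_mem _ (W.map_mem _ (ha _)))
    (fun l => W.map_mem _ (W.map_mem _ (ha' _))), mul_smul]
  congr 1
  have h3 : (List.ofFn fun l => A l (x l)).prod =
      W.map (fst (pw X n) (pw X n)) (boxN W X n fun l => a (x l)) := by
    rw [boxN, map_list_prod, List.map_ofFn]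
    rfl
  have h4 : (List.ofFn fun l => B l (x l)).prod =
      ((σ.sign : ℤ) : W.K) ^ j • W.map (snd (pw X n) (pw X n))
        (boxN W X n fun l => a' (x (σ⁻¹ l))) := by
    have e1 : (fun l => B l (x l)) = fun l => (fun m => W.map (snd (pw X n) (pw X n))
        (W.map (pj X n m) (a' (x (σ⁻¹ m))))) (σ l) := by
      funext l
      rw [hB]
      beta_reduce
      have e2 : σ⁻¹ (σ l) = l := σ.symm_apply_apply l
      rw [e2]
    rw [e1]
    refine (prod_perm_sign (W := W) (d := j) (A := fun m => W.map (snd (pw X n) (pw X n))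
      (W.map (pj X n m) (a' (x (σ⁻¹ m))))) (fun m => W.map_mem _ (W.map_mem _ (ha' _))) σ).trans ?_
    rw [boxN, map_list_prod, List.map_ofFn]
    rfl
  rw [h3, h4, mul_smul_comm]
  rfl

/-- **The product of the determinants is algebraic if the inverse of the pairing is algebraic.** -/
theorem det_of_theta (S : AlgSys W) {i j p n : ℕ} (hij : i + j = 2 * p)
    {a a' : Fin (n + 1) → W.H X}
    (ha : ∀ l, a l ∈ W.gr X i) (ha' : ∀ l, a' l ∈ W.gr X j)
    (hθ : ∑ l, box W X X (a l) (a' l) ∈ S.S (X.prod X) p) :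
    box W (pw X n) (pw X n) (detN W X n a) (detN W X n a') ∈
      S.S ((pw X n).prod (pw X n)) ((n + 1) * p) := by
  classical
  obtain ⟨s, hs, hall⟩ := prod_psi W X i j n
  set Θ : Equiv.Perm (Fin (n + 1)) → W.H ((pw X n).prod (pw X n)) := fun σ =>
    (List.ofFn fun l => W.map (psi X n σ l) (∑ m, box W X X (a m) (a' m))).prod with hΘ
  have h1 : ∀ σ, Θ σ ∈ S.S ((pw X n).prod (pw X n)) ((n + 1) * p) := fun σ =>
    S.list_prod (n + 1) fun l => S.pull _ hθ
  have h2 : ∑ σ : Equiv.Perm (Fin (n + 1)), ((σ.sign : ℤ) : W.K) ^ (j + 1) • Θ σ ∈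
      S.S ((pw X n).prod (pw X n)) ((n + 1) * p) := by
    refine S.sum _ fun σ _ => S.sgn ?_ (h1 σ)
    rcases Int.units_eq_one_or σ.sign with h | h
    · rw [h]; simp
    · rw [h]
      push_cast
      exact neg_one_pow_or _
  have h3 : ∑ σ : Equiv.Perm (Fin (n + 1)), ((σ.sign : ℤ) : W.K) ^ (j + 1) • Θ σ =
      s • box W (pw X n) (pw X n) (detN W X n a) (detN W X n a') := by
    have e1 : ∀ σ : Equiv.Perm (Fin (n + 1)), ((σ.sign : ℤ) : W.K) ^ (j + 1) • Θ σ =
        s • ∑ x : Fin (n + 1) → Fin (n + 1), box W (pw X n) (pw X n)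
          (boxN W X n fun l => a (x l)) (((σ.sign : ℤ) : W.K) •
            boxN W X n fun l => a' (x (σ⁻¹ l))) := by
      intro σ
      rw [hΘ]
      beta_reduce
      rw [hall a a' ha ha' σ, smul_smul]
      have e2 : ((σ.sign : ℤ) : W.K) ^ (j + 1) * (s * ((σ.sign : ℤ) : W.K) ^ j) =
          s * ((σ.sign : ℤ) : W.K) := by
        have e3 : ((σ.sign : ℤ) : W.K) * ((σ.sign : ℤ) : W.K) = 1 := by
          rcases Int.units_eq_one_or σ.sign with h | h <;> rw [h] <;> simp
        have e4 : (((σ.sign : ℤ) : W.K) * ((σ.sign : ℤ) : W.K)) ^ j = 1 := by rw [e3, one_pow]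
        rw [mul_pow] at e4
        calc ((σ.sign : ℤ) : W.K) ^ (j + 1) * (s * ((σ.sign : ℤ) : W.K) ^ j)
            = s * ((σ.sign : ℤ) : W.K) * (((σ.sign : ℤ) : W.K) ^ j *
              ((σ.sign : ℤ) : W.K) ^ j) := by ring
          _ = _ := by rw [e4, mul_one]
      rw [e2, mul_smul]
      congr 1
      rw [Finset.smul_sum]
      refine Finset.sum_congr rfl fun x _ => ?_
      rw [box_smul_right]
    rw [Finset.sum_congr rfl fun σ _ => e1 σ, ← Finset.smul_sum]
    congr 1
    rw [Finset.sum_comm]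
    have e2 : ∀ x : Fin (n + 1) → Fin (n + 1),
        ∑ σ : Equiv.Perm (Fin (n + 1)), box W (pw X n) (pw X n)
          (boxN W X n fun l => a (x l)) (((σ.sign : ℤ) : W.K) •
            boxN W X n fun l => a' (x (σ⁻¹ l))) =
        box W (pw X n) (pw X n) (boxN W X n fun l => a (x l))
          (detN W X n fun l => a' (x l)) := by
      intro x
      rw [← box_sum_right]
      congr 1
      rw [detN, ← Equiv.sum_comp (Equiv.inv (Equiv.Perm (Fin (n + 1))))]
      refine Finset.sum_congr rfl fun σ _ => ?_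
      rw [Equiv.inv_apply, Equiv.Perm.sign_inv, inv_inv]
    rw [Finset.sum_congr rfl fun x _ => e2 x]
    have e3 : ∑ x : Fin (n + 1) → Fin (n + 1), box W (pw X n) (pw X n)
        (boxN W X n fun l => a (x l)) (detN W X n fun l => a' (x l)) =
        ∑ τ : Equiv.Perm (Fin (n + 1)), box W (pw X n) (pw X n)
        (boxN W X n fun l => a (τ l)) (detN W X n fun l => a' (τ l)) := by
      symm
      apply Finset.sum_of_injOn (fun τ : Equiv.Perm (Fin (n + 1)) => (τ : Fin (n + 1) → Fin (n + 1)))
      · intro τ _ τ' _ h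
        exact Equiv.ext fun l => congrFun h l
      · intro τ _
        exact Finset.mem_coe.2 (Finset.mem_univ _)
      · intro x _ hx
        have hx' : ¬ Function.Injective x := by
          intro hinj
          apply hx
          exact ⟨Equiv.ofBijective x hinj.bijective_of_finite, by simp, rfl⟩
        have e4 : detN W X n (fun l => a' (x l)) = 0 := by
          rw [← detA_apply]
          rw [Function.not_injective_iff] at hx'
          obtain ⟨l, m, hlm, hne⟩ := hx'
          exact (detA W X n).map_eq_zero_of_eq _ (congrArg a' hlm) hne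
        rw [e4, box, map_zero, mul_zero]
      · intro τ _
        rfl
    rw [e3, detN, box_sum_left]
    refine Finset.sum_congr rfl fun τ _ => ?_
    rw [box_smul_left, ← box_smul_right]
    congr 1
    have e4 : detN W X n (fun l => a' (τ l)) = detA W X n (a' ∘ τ) := (detA_apply _ _).symm
    rw [e4, AlternatingMap.map_perm, detA_apply]
    rcases Int.units_eq_one_or τ.sign with h | h <;> rw [h] <;> simp
  rw [h3] at h2
  have h4 := S.sgn hs h2
  rw [smul_smul] at h4
  have hss : s * s = 1 := by rcases hs with rfl | rfl <;> simp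
  rwa [hss, one_smul] at h4

end Pool.Agent.V1144.Dt
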