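import Pool.Agent.V1144.Dt.Det
import Pool.Agent.H914R2.Crit

/-!
# Dual bases and the operators given by them
-/

open CategoryTheory AlgebraicGeometry Finset

set_option linter.unusedSectionVars false
set_option linter.unusedVariables false

universe u v

namespace Pool.Agent.V1144.Dt

open Pool.Agent.H914 Pool.Agent.H914.VarClass Pool.Agent.H914.VarClass.Obj
  Pool.Agent.H914.WeilCohomology Pool.Agent.H281R3.HT Pool.Agent.Y129

variable {k : Type u} [Field k] {𝒱 : VarClass k} {ops : CycleOps 𝒱}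
  {W : WeilCohomology.{u, v} ops} {X Y Z : 𝒱.Obj}

/-- Dual bases. -/
lemma exists_dual {i j n : ℕ} {η : W.H X}
    (hnd : ∀ y ∈ W.gr X j, (∀ x ∈ W.gr X i, W.tr X (x * y * η) = 0) → y = 0)
    (hfin : W.betti X i = W.betti X j) (a : Module.Basis (Fin (n + 1)) W.K (W.gr X i)) :
    ∃ a' : Module.Basis (Fin (n + 1)) W.K (W.gr X j), ∀ l m,
      W.tr X ((a l : W.H X) * (a' m : W.H X) * η) = if l = m then 1 else 0 := by
  classical
  set φ : W.gr X j →ₗ[W.K] Module.Dual W.K (W.gr X i) :=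
    { toFun := fun y => W.tr X ∘ₗ (LinearMap.mulRight W.K ((y : W.H X) * η)) ∘ₗ
        (W.gr X i).subtype
      map_add' := by
        intro y y'
        ext x
        simp [add_mul, mul_add, mul_assoc]
      map_smul' := by
        intro r y
        ext x
        simp [mul_assoc] } with hφ
  have hφa : ∀ y x, φ y x = W.tr X ((x : W.H X) * (y : W.H X) * η) := by
    intro y x
    rw [mul_assoc]
    rfl
  have hinj : Function.Injective φ := by
    rw [← LinearMap.ker_eq_bot, LinearMap.ker_eq_bot']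
    intro y hy
    apply Subtype.ext
    refine hnd y y.2 fun x hx => ?_
    have := hφa y ⟨x, hx⟩
    rw [hy] at this
    exact this.symm
  have hfin' : Module.finrank W.K (W.gr X j) =
      Module.finrank W.K (Module.Dual W.K (W.gr X i)) := by
    rw [Subspace.dual_finrank_eq]
    exact hfin.symm
  let e : W.gr X j ≃ₗ[W.K] Module.Dual W.K (W.gr X i) :=
    LinearMap.linearEquivOfInjective φ hinj hfin'
  refine ⟨a.dualBasis.map e.symm, fun l m => ?_⟩
  have h1 := hφa (e.symm (a.dualBasis m)) (a l)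
  have h2 : φ (e.symm (a.dualBasis m)) = a.dualBasis m := e.apply_symm_apply _
  rw [Module.Basis.map_apply, ← h1, h2, Module.Basis.dualBasis_apply_self]

/-- The operator given by a sum of external products. -/
lemma corr_sum_box {ι : Type*} (s : Finset ι) {j l : ℕ} (a : ι → W.H X) {a' : ι → W.H Y}
    (ha' : ∀ m, a' m ∈ W.gr Y j) {z : W.H X} (hz : z ∈ W.gr X l) :
    W.corr (∑ m ∈ s, box W X Y (a m) (a' m)) z =
      (-1 : W.K) ^ (j * l) • ∑ m ∈ s, W.tr X (a m * z) • a' m := by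
  rw [corr_apply, Finset.sum_mul, map_sum, Finset.smul_sum]
  refine Finset.sum_congr rfl fun m _ => ?_
  have h1 := W.comm (W.map_mem (snd X Y) (ha' m)) (W.map_mem (fst X Y) hz)
  rw [box, mul_assoc, h1, mul_smul_comm, map_smul, ← mul_assoc, ← map_mul, W.push_snd]

/-- The class of the operator with the matrix of a dual basis. -/
lemma corr_theta {i j n : ℕ} (hi : i ≤ 2 * X.dim) {a : Fin (n + 1) → W.H X}
    {a' : Fin (n + 1) → W.H X} (ha : ∀ l, a l ∈ W.gr X i) (ha' : ∀ l, a' l ∈ W.gr X j)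
    {T : Module.End W.K (W.H X)}
    (h0 : ∀ l, l ≠ 2 * X.dim - i → ∀ z ∈ W.gr X l, T z = 0)
    (h1 : ∀ z ∈ W.gr X (2 * X.dim - i), T z = ∑ l, W.tr X (a l * z) • a' l) :
    W.corr (∑ l, box W X X (a l) (a' l)) = (-1 : W.K) ^ (j * (2 * X.dim - i)) • T := by
  apply gr_ext (W.isInternal X)
  intro l z hz
  rw [corr_sum_box _ _ ha' hz, LinearMap.smul_apply]
  by_cases hl : l = 2 * X.dim - i
  · rw [hl, h1 z (hl ▸ hz)]
  · rw [h0 l hl z hz, smul_zero, Finset.sum_eq_zero, smul_zero]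
    intro m _
    rw [W.tr_eq_zero (W.mul_mem (ha m) hz) (by omega), zero_smul]

lemma corr_ext {c d : W.H (X.prod Y)} (h : W.corr c = W.corr d) : c = d := by
  rw [← sub_eq_zero]
  apply corr_inj
  have h1 : c - d = c + (-1 : W.K) • d := by rw [neg_one_smul, sub_eq_add_neg]
  rw [h1, corr_add, corr_smul, h]
  apply LinearMap.ext
  intro x
  rw [LinearMap.add_apply, LinearMap.smul_apply, neg_smul, one_smul, add_neg_cancel]
  rfl

/-- The class of an operator which is in the algebra. -/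
lemma theta_mem_span {i j n q : ℕ} (hi : i ≤ 2 * X.dim) {a : Fin (n + 1) → W.H X}
    {a' : Fin (n + 1) → W.H X} (ha : ∀ l, a l ∈ W.gr X i) (ha' : ∀ l, a' l ∈ W.gr X j)
    {T : Module.End W.K (W.H X)} {γ : W.H (X.prod X)} (hγ : γ ∈ spanCycles W (X.prod X) q)
    (hT : W.corr γ = T)
    (h0 : ∀ l, l ≠ 2 * X.dim - i → ∀ z ∈ W.gr X l, T z = 0)
    (h1 : ∀ z ∈ W.gr X (2 * X.dim - i), T z = ∑ l, W.tr X (a l * z) • a' l) :
    ∑ l, box W X X (a l) (a' l) ∈ (spanSys W).S (X.prod X) q := by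
  have h2 := corr_theta hi ha ha' h0 h1
  rw [← hT, ← corr_smul] at h2
  rw [corr_ext h2]
  exact (spanSys W).sgn (neg_one_pow_or _) hγ

lemma theta_mem_alg {i j n q : ℕ} (hi : i ≤ 2 * X.dim) {a : Fin (n + 1) → W.H X}
    {a' : Fin (n + 1) → W.H X} (ha : ∀ l, a l ∈ W.gr X i) (ha' : ∀ l, a' l ∈ W.gr X j)
    {T : Module.End W.K (W.H X)} {γ : W.H (X.prod X)} (hγ : γ ∈ algClasses W (X.prod X) q)
    (hT : W.corr γ = T)
    (h0 : ∀ l, l ≠ 2 * X.dim - i → ∀ z ∈ W.gr X l, T z = 0)
    (h1 : ∀ z ∈ W.gr X (2 * X.dim - i), T z = ∑ l, W.tr X (a l * z) • a' l) :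
    ∑ l, box W X X (a l) (a' l) ∈ (ratSys W).S (X.prod X) q := by
  have h2 := corr_theta hi ha ha' h0 h1
  rw [← hT, ← corr_smul] at h2
  rw [corr_ext h2]
  exact (ratSys W).sgn (neg_one_pow_or _) hγ

/-- Coordinates in a dual basis. -/
lemma sum_dual {i j n : ℕ} {η : W.H X} {a : Fin (n + 1) → W.H X}
    (a' : Module.Basis (Fin (n + 1)) W.K (W.gr X j))
    (hdual : ∀ l m, W.tr X (a l * (a' m : W.H X) * η) = if l = m then 1 else 0)
    {z : W.H X} (hz : z ∈ W.gr X j) :
    ∑ l, W.tr X (a l * z * η) • (a' l : W.H X) = z := by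
  classical
  have h1 := a'.sum_repr ⟨z, hz⟩
  have h2 : z = ∑ m, a'.repr ⟨z, hz⟩ m • (a' m : W.H X) := by
    have := congrArg (Subtype.val) h1
    push_cast at this
    exact this.symm
  have h3 : ∀ l, W.tr X (a l * z * η) = a'.repr ⟨z, hz⟩ l := by
    intro l
    conv_lhs => rw [h2]
    rw [Finset.mul_sum, Finset.sum_mul, map_sum, Finset.sum_eq_single l]
    · rw [mul_smul_comm, smul_mul_assoc, map_smul, hdual, if_pos rfl, smul_eq_mul, mul_one]
    · intro m _ hm
      rw [mul_smul_comm, smul_mul_assoc, map_smul, hdual, if_neg (Ne.symm hm), smul_zero]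
    · intro h
      exact absurd (Finset.mem_univ _) h
  rw [Finset.sum_congr rfl fun l _ => by rw [h3 l]]
  exact h2.symm

/-- Poincaré duality. -/
lemma eq_zero_of_tr {i j : ℕ} (hij : i + j = 2 * X.dim) {z : W.H X} (hz : z ∈ W.gr X j)
    (h : ∀ x ∈ W.gr X i, W.tr X (x * z) = 0) : z = 0 := by
  apply W.nondeg
  intro b
  refine gr_induction (W.isInternal X) (p := fun b => W.tr X (z * b) = 0) ?_ ?_ b
  · intro l x hx
    by_cases hl : l = i
    · subst hl
      rw [W.comm hz hx, map_smul, h x hx, smul_zero]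
    · exact W.tr_eq_zero (W.mul_mem hz hx) (by omega)
  · intro x y hx hy
    rw [mul_add, map_add, hx, hy, add_zero]

end Pool.Agent.V1144.Dt
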