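import Pool.Agent.V1144.Dt.BMain

/-!
# The conjecture B and the numerical nontriviality of the squares of the determinants
-/

open CategoryTheory AlgebraicGeometry Finset

set_option linter.unusedSectionVars false
set_option linter.unusedVariables false

universe u v

namespace Pool.Agent.V1144.Dt

open Pool.Agent.H914 Pool.Agent.H914.VarClass Pool.Agent.H914.VarClass.Obj
  Pool.Agent.H914.WeilCohomology Pool.Agent.H281R3.HT Pool.Agent.Y129

variable {k : Type u} [Field k] {𝒱 : VarClass k} {ops : CycleOps 𝒱}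
  {W : WeilCohomology.{u, v} ops} {X Y Z : 𝒱.Obj}

lemma boxN_one (n : ℕ) : boxN W X n (fun _ => 1) = 1 := by
  induction n with
  | zero => rw [boxN_zero]; rfl
  | succ n ih =>
    rw [boxN_succ, ih, box, map_one, map_one, mul_one]
    rfl

/-- The trace of the product of the determinants of dual families. -/
lemma tr_det {i j n : ℕ} {a b : Fin (n + 1) → W.H X} (ha : ∀ l, a l ∈ W.gr X i)
    (hb : ∀ l, b l ∈ W.gr X j) (hdual : ∀ l m, W.tr X (a l * b m) = if l = m then 1 else 0) :
    ∃ s : W.K, (s = 1 ∨ s = -1) ∧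
      W.tr (pw X n) (detN W X n a * detN W X n b) = s * (((n + 1).factorial : ℕ) : W.K) := by
  classical
  obtain ⟨s, hs, hall⟩ := tr_boxN W X i j 0 n
  refine ⟨s, hs, ?_⟩
  have h1 : ∀ σ τ : Equiv.Perm (Fin (n + 1)),
      W.tr (pw X n) ((boxN W X n fun l => a (σ l)) * boxN W X n fun l => b (τ l)) =
        if σ = τ then s else 0 := by
    intro σ τ
    have h2 := hall (fun l => a (σ l)) (fun l => b (τ l)) (fun l => ha _) (fun l => hb _) 1
      (W.one_mem X)
    rw [boxN_one, mul_one] at h2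
    rw [h2]
    split_ifs with h
    · subst h
      rw [Finset.prod_eq_one, mul_one]
      intro l _
      rw [mul_one, hdual, if_pos rfl]
    · have h3 : ∃ l, σ l ≠ τ l := by
        by_contra hcon
        push Not at hcon
        exact h (Equiv.ext hcon)
      obtain ⟨l, hl⟩ := h3
      rw [Finset.prod_eq_zero (Finset.mem_univ l), mul_zero]
      rw [mul_one, hdual, if_neg hl]
  have h2 : detN W X n a * detN W X n b =
      ∑ σ : Equiv.Perm (Fin (n + 1)), ∑ τ : Equiv.Perm (Fin (n + 1)),
        (((σ.sign : ℤ) : W.K) * ((τ.sign : ℤ) : W.K)) •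
          ((boxN W X n fun l => a (σ l)) * boxN W X n fun l => b (τ l)) := by
    rw [detN, detN, Finset.sum_mul]
    refine Finset.sum_congr rfl fun σ _ => ?_
    rw [Finset.mul_sum]
    refine Finset.sum_congr rfl fun τ _ => ?_
    rw [smul_mul_assoc, mul_smul_comm, smul_smul]
  rw [h2, map_sum]
  have h3 : ∀ σ : Equiv.Perm (Fin (n + 1)), W.tr (pw X n) (∑ τ : Equiv.Perm (Fin (n + 1)),
        (((σ.sign : ℤ) : W.K) * ((τ.sign : ℤ) : W.K)) •
          ((boxN W X n fun l => a (σ l)) * boxN W X n fun l => b (τ l))) = s := by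
    intro σ
    rw [map_sum, Finset.sum_eq_single σ]
    · rw [map_smul, h1, if_pos rfl, smul_eq_mul]
      rcases Int.units_eq_one_or σ.sign with h | h <;> rw [h] <;> simp
    · intro τ _ hτ
      rw [map_smul, h1, if_neg (Ne.symm hτ), smul_zero]
    · intro h
      exact absurd (Finset.mem_univ _) h
  rw [Finset.sum_congr rfl fun σ _ => h3 σ, Finset.sum_const, Finset.card_univ,
    Fintype.card_perm, Fintype.card_fin, nsmul_eq_mul, mul_comm]

/-- The operator given by the external product of two classes. -/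
lemma corr_box' {p q : ℕ} {u : W.H Y} {w : W.H Z} (hu : u ∈ W.gr Y p) (hw : w ∈ W.gr Z q)
    (z : W.H Y) : W.corr (box W Y Z u w) z =
      ((-1 : W.K) ^ (q * (2 * Y.dim - p)) * W.tr Y (u * z)) • w := by
  refine gr_induction (W.isInternal Y) (p := fun z => W.corr (box W Y Z u w) z =
      ((-1 : W.K) ^ (q * (2 * Y.dim - p)) * W.tr Y (u * z)) • w) ?_ ?_ z
  · intro l z hz
    have h1 := W.comm (W.map_mem (snd Y Z) hw) (W.map_mem (fst Y Z) hz)
    have h2 : W.corr (box W Y Z u w) z = ((-1 : W.K) ^ (q * l) * W.tr Y (u * z)) • w := by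
      rw [corr_apply, box, mul_assoc, h1, mul_smul_comm, map_smul, ← mul_assoc, ← map_mul,
        W.push_snd, smul_smul]
    rw [h2]
    by_cases hl : p + l = 2 * Y.dim
    · rw [show 2 * Y.dim - p = l by omega]
    · rw [W.tr_eq_zero (W.mul_mem hu hz) hl, mul_zero, mul_zero]
  · intro x y hx hy
    rw [map_add, hx, hy, mul_add, map_add, mul_add, add_smul]

/-- The product of a Künneth projector and a determinant. -/
lemma kunneth_det {i j n : ℕ} (hC : ∃ γ ∈ spanCycles W (X.prod X) (X.dim : ℤ),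
      IsProjector (W.gr X) j (W.corr γ)) (hij : i + j = 2 * X.dim) (a : Fin (n + 1) → W.H X) (ha : ∀ l, a l ∈ W.gr X i)
    (b : Module.Basis (Fin (n + 1)) W.K (W.gr X j))
    (hdual : ∀ l m, W.tr X (a l * (b m : W.H X) * 1) = if l = m then 1 else 0) :
    ∑ l, box W X X (a l) (b l) ∈ (spanSys W).S (X.prod X) X.dim := by
  obtain ⟨γ, hγ, hP⟩ := hC
  refine theta_mem_span (i := i) (j := j) (by omega) ha (fun l => (b l).2) hγ rfl ?_ ?_
  · intro l hl z hz
    rw [hP l z hz, if_neg (by omega)]
  · intro z hz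
    have hj : 2 * X.dim - i = j := by omega
    rw [hj] at hz
    rw [hP j z hz, if_pos rfl]
    have := sum_dual (i := i) (η := (1 : W.H X)) (a := a) b hdual hz
    simp only [mul_one] at this
    exact this.symm

lemma tr_corr (γ : W.H (Y.prod Z)) {p q : ℕ} (u : W.H Y) {w : W.H Z} (hw : w ∈ W.gr Z q) :
    W.tr Z (W.corr γ u * w) = W.tr (Y.prod Z) (γ * box W Y Z u w) := by
  rw [corr_apply, W.tr_push, box, mul_assoc]

/-- **From the numerical nontriviality to the algebraicity of the determinant.** -/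
theorem detSpan_of_num (hC : Pool.Agent.V1144.Pw.KunnethSpan W X) {i : ℕ} (hi : i ≤ X.dim)
    (h : DetSquareNumNonzeroB W X i) : DetSquareSpanB W X i := by
  intro n a
  set j := 2 * X.dim - i with hj
  have hsymm : W.betti X i = W.betti X j :=
    le_antisymm (betti_symm_le W (by omega)) (betti_symm_le W (by omega))
  obtain ⟨b, hb⟩ := exists_dual (W := W) (X := X) (i := i) (j := j) (η := 1)
    (fun y hy h => eq_zero_of_tr (i := i) (j := j) (by omega) hy (fun x hx => by
      have := h x hx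
      rwa [mul_one] at this)) hsymm a
  obtain ⟨a', ha'⟩ := exists_dual (W := W) (X := X) (i := j) (j := i) (η := 1)
    (fun y hy h => eq_zero_of_tr (i := j) (j := i) (by omega) hy (fun x hx => by
      have := h x hx
      rwa [mul_one] at this)) hsymm.symm b
  set e := detN W X n (fun l => (a l : W.H X)) with he
  set e' := detN W X n (fun l => (b l : W.H X)) with he'
  have hem : e ∈ W.gr (pw X n) ((n + 1) * i) := detN_mem n fun l => (a l).2
  have hem' : e' ∈ W.gr (pw X n) ((n + 1) * j) := detN_mem n fun l => (b l).2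
  -- the two rank one projectors
  have h1 : box W (pw X n) (pw X n) e e' ∈
      (spanSys W).S ((pw X n).prod (pw X n)) ((n + 1) * X.dim) :=
    det_of_theta (spanSys W) (i := i) (j := j) (p := X.dim) (by omega)
      (fun l => (a l).2) (fun l => (b l).2)
      (kunneth_det (hC _) (by omega) (fun l => (a l : W.H X)) (fun l => (a l).2) b hb)
  have h2 : box W (pw X n) (pw X n) e' e ∈
      (spanSys W).S ((pw X n).prod (pw X n)) ((n + 1) * X.dim) := by
    have h3 : box W (pw X n) (pw X n) e' (detN W X n fun l => (a' l : W.H X)) ∈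
        (spanSys W).S ((pw X n).prod (pw X n)) ((n + 1) * X.dim) :=
      det_of_theta (spanSys W) (i := j) (j := i) (p := X.dim) (by omega)
        (fun l => (b l).2) (fun l => (a' l).2)
        (kunneth_det (hC _) (by omega) (fun l => (b l : W.H X)) (fun l => (b l).2) a' ha')
    rw [detN_basis n a a', box_smul_right] at h3
    have h4 := Submodule.smul_mem (spanCycles W ((pw X n).prod (pw X n))
      (((n + 1) * X.dim : ℕ) : ℤ)) (a.det a')⁻¹ h3
    rwa [smul_smul, inv_mul_cancel₀ (det_ne_zero a a'), one_smul] at h4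
  obtain ⟨z, hz, hzt⟩ := h n b
  have hdimP : (pw X n).dim = (n + 1) * X.dim := pw_dim X n
  have k1 : W.corr (box W (pw X n) (pw X n) e e') ∈ KOp W (pw X n) (pw X n) 0 := by
    refine mem_KOp_iff.2 ⟨_, ?_, rfl⟩
    rw [add_zero, hdimP]
    exact h1
  have k2 : W.corr (box W (pw X n) (pw X n) e' e) ∈ KOp W (pw X n) (pw X n) 0 := by
    refine mem_KOp_iff.2 ⟨_, ?_, rfl⟩
    rw [add_zero, hdimP]
    exact h2
  have k3 : W.corr (W.cl _ z) ∈ KOp W (pw X n) (pw X n)
      ((((n + 1) * i : ℕ) : ℤ) - (pw X n).dim) :=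
    KOp.gen (p := (n + 1) * i) (by ring) hz
  have k4 := KOp.comp (KOp.comp k2 k3) k1
  have e1 : W.tr (pw X n) (W.corr (W.cl _ z) e' * e') ≠ 0 := by
    rw [tr_corr (p := 0) _ _ hem']
    exact hzt
  have e2 : ∀ x, (W.corr (box W (pw X n) (pw X n) e' e) ∘ₗ W.corr (W.cl _ z) ∘ₗ
      W.corr (box W (pw X n) (pw X n) e e')) x =
      ((-1 : W.K) ^ ((n + 1) * j * (2 * (pw X n).dim - (n + 1) * i)) *
        W.tr (pw X n) (e * x)) • (((-1 : W.K) ^ ((n + 1) * i * (2 * (pw X n).dim - (n + 1) * j)) *
        W.tr (pw X n) (e' * W.corr (W.cl _ z) e')) • e) := by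
    intro x
    rw [LinearMap.comp_apply, LinearMap.comp_apply, corr_box' hem hem', map_smul, map_smul,
      corr_box' hem' hem]
  have e3 : W.tr (pw X n) (e' * W.corr (W.cl _ z) e') ≠ 0 := by
    intro h0
    apply e1
    have h5 : W.corr (W.cl _ z) e' ∈ grZ (W.gr (pw X n)) (((n + 1) * j : ℕ) +
        2 * ((((n + 1) * i : ℕ) : ℤ) - (pw X n).dim)) :=
      KOp.isHom k3 _ _ (by rw [grZ_natCast]; exact hem')
    have h6 : ((((n + 1) * j : ℕ) : ℤ) + 2 * ((((n + 1) * i : ℕ) : ℤ) - (pw X n).dim)) =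
        (((n + 1) * i : ℕ) : ℤ) := by
      rw [hdimP]
      have h7 : ((j : ℕ) : ℤ) = 2 * X.dim - i := by omega
      push_cast
      rw [h7]
      ring
    rw [h6, grZ_natCast] at h5
    rw [W.comm h5 hem', map_smul, h0, smul_zero]
  set κ : W.K := ((-1 : W.K) ^ ((n + 1) * j * (2 * (pw X n).dim - (n + 1) * i)) *
    ((-1 : W.K) ^ ((n + 1) * i * (2 * (pw X n).dim - (n + 1) * j)) *
        W.tr (pw X n) (e' * W.corr (W.cl _ z) e'))) with hκ
  have hκ0 : κ ≠ 0 := mul_ne_zero (pow_ne_zero _ (neg_ne_zero.2 one_ne_zero))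
    (mul_ne_zero (pow_ne_zero _ (neg_ne_zero.2 one_ne_zero)) e3)
  have e4 : W.corr (box W (pw X n) (pw X n) e e) =
      ((-1 : W.K) ^ ((n + 1) * i * (2 * (pw X n).dim - (n + 1) * i)) * κ⁻¹) •
        (W.corr (box W (pw X n) (pw X n) e' e) ∘ₗ W.corr (W.cl _ z) ∘ₗ
          W.corr (box W (pw X n) (pw X n) e e')) := by
    apply LinearMap.ext
    intro x
    rw [LinearMap.smul_apply, e2, corr_box' hem hem, smul_smul, smul_smul]
    congr 1
    have hk : κ⁻¹ * κ = 1 := inv_mul_cancel₀ hκ0
    calc (-1 : W.K) ^ ((n + 1) * i * (2 * (pw X n).dim - (n + 1) * i)) * W.tr (pw X n) (e * x)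
        = (-1 : W.K) ^ ((n + 1) * i * (2 * (pw X n).dim - (n + 1) * i)) * (κ⁻¹ * κ) *
          W.tr (pw X n) (e * x) := by rw [hk, mul_one]
      _ = _ := by
        nth_rewrite 2 [hκ]
        ring
  have k5 : W.corr (box W (pw X n) (pw X n) e e) ∈ KOp W (pw X n) (pw X n)
      ((((n + 1) * i : ℕ) : ℤ) - (pw X n).dim) := by
    rw [e4]
    refine Submodule.smul_mem _ _ ?_
    have h5 := KOp.cast k4 (e := (((n + 1) * i : ℕ) : ℤ) - (pw X n).dim) (by ring)
    rwa [LinearMap.comp_assoc] at h5
  obtain ⟨γ, hγ, hγe⟩ := mem_KOp_iff.1 k5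
  rw [show ((pw X n).dim : ℤ) + ((((n + 1) * i : ℕ) : ℤ) - (pw X n).dim) =
    (((n + 1) * i : ℕ) : ℤ) by ring] at hγ
  have h5 : detBox W X n (fun l => a l) (fun l => a l) = γ := corr_ext hγe.symm
  rw [h5]
  exact hγ

/-- **From the algebraicity to the numerical nontriviality.** -/
theorem num_of_detSpan {i : ℕ} (hi : i ≤ X.dim) (h : DetSquareSpanB W X i) :
    DetSquareNumNonzeroB W X i := by
  obtain ⟨j, hj⟩ : ∃ j, j = 2 * X.dim - i := ⟨_, rfl⟩
  unfold DetSquareNumNonzeroB
  rw [← hj]
  intro n b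
  have hsymm : W.betti X i = W.betti X j :=
    le_antisymm (betti_symm_le W (by omega)) (betti_symm_le W (by omega))
  obtain ⟨a, ha⟩ := exists_dual (W := W) (X := X) (i := j) (j := i) (η := 1)
    (fun y hy h => eq_zero_of_tr (i := j) (j := i) (by omega) hy (fun x hx => by
      have := h x hx
      rwa [mul_one] at this)) hsymm.symm b
  set e := detN W X n (fun l => (a l : W.H X)) with he
  set e' := detN W X n (fun l => (b l : W.H X)) with he'
  have hem : e ∈ W.gr (pw X n) ((n + 1) * i) := detN_mem n fun l => (a l).2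
  have hem' : e' ∈ W.gr (pw X n) ((n + 1) * j) := detN_mem n fun l => (b l).2
  obtain ⟨s, hs, hst⟩ := tr_det (W := W) (X := X) (fun l => (b l).2) (fun l => (a l).2)
    (fun l m => by
      have := ha l m
      rwa [mul_one] at this)
  have hne : W.tr (pw X n) (e' * e) ≠ 0 := by
    rw [hst]
    refine mul_ne_zero (by rcases hs with rfl | rfl <;> simp) ?_
    exact_mod_cast (n + 1).factorial_ne_zero
  have hne' : W.tr (pw X n) (e * e') ≠ 0 := by
    rw [W.comm hem hem', map_smul]
    exact smul_ne_zero (pow_ne_zero _ (neg_ne_zero.2 one_ne_zero)) hne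
  have h1 : W.tr _ (detBox W X n (fun l => a l) (fun l => a l) *
      detBox W X n (fun l => b l) (fun l => b l)) ≠ 0 := by
    change W.tr _ (box W (pw X n) (pw X n) e e * box W (pw X n) (pw X n) e' e') ≠ 0
    rw [box_mul _ _ hem hem', map_smul, tr_box]
    exact smul_ne_zero (pow_ne_zero _ (neg_ne_zero.2 one_ne_zero)) (mul_ne_zero hne' hne')
  by_contra hcon
  push Not at hcon
  apply h1
  have h2 := h n a
  rw [spanCycles_eq] at h2
  refine Submodule.span_induction (p := fun x _ => W.tr _ (x *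
    detBox W X n (fun l => b l) (fun l => b l)) = 0) ?_ ?_ ?_ ?_ h2
  · rintro _ ⟨z, hz, rfl⟩
    exact hcon z hz
  · rw [zero_mul, map_zero]
  · intro x y _ _ hx hy
    rw [add_mul, map_add, hx, hy, add_zero]
  · intro r x _ hx
    rw [smul_mul_assoc, map_smul, hx, smul_zero]

/-- The square of the determinant of `H^(2n - i)(X)` is algebraic if `C(X)` holds. -/
theorem detSpan_upper (hC : Pool.Agent.V1144.Pw.KunnethSpan W X) {D : X.Cycles}
    (hD : X.IsCyc 1 D) (hHL : HardLefschetz W X D) {i : ℕ} (hi : i ≤ X.dim) :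
    DetSquareSpanB W X (2 * X.dim - i) := by
  obtain ⟨j, hj⟩ : ∃ j, j = 2 * X.dim - i := ⟨_, rfl⟩
  rw [← hj]
  intro n b
  set c := X.dim - i with hc
  have hsymm : W.betti X i = W.betti X j :=
    le_antisymm (betti_symm_le W (by omega)) (betti_symm_le W (by omega))
  obtain ⟨a, ha⟩ := exists_dual (W := W) (X := X) (i := j) (j := i) (η := 1)
    (fun y hy h => eq_zero_of_tr (i := j) (j := i) (by omega) hy (fun x hx => by
      have := h x hx
      rwa [mul_one] at this)) hsymm.symm b
  have hηS : W.cl X D ^ c ∈ (spanSys W).S X c :=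
    powD_mem (spanSys W) (alg_mem_span ⟨D, hD, rfl⟩) c
  have hη : W.cl X D ^ c ∈ W.gr X (2 * c) := (spanSys W).deg hηS
  have h1 := kunneth_det (hC i) (i := j) (j := i) (by omega) (fun l => (b l : W.H X))
    (fun l => (b l).2) a ha
  have h2 : ∑ l, box W X X (b l) (W.cl X D ^ c * a l) ∈ (spanSys W).S (X.prod X) j := by
    have h3 := (spanSys W).mul h1 ((spanSys W).pull (snd X X) hηS)
    rw [Finset.sum_mul, show X.dim + c = j by omega] at h3
    have h4 : ∀ l, box W X X (b l : W.H X) (a l) * W.map (snd X X) (W.cl X D ^ c) =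
        box W X X (b l) (W.cl X D ^ c * a l) := by
      intro l
      rw [box, box, map_mul, mul_assoc, W.even_comm (W.map_mem (snd X X) hη)]
    rwa [Finset.sum_congr rfl fun l _ => h4 l] at h3
  -- the basis of `H^j`
  let φ : W.gr X i →ₗ[W.K] W.gr X j :=
    { toFun := fun x => ⟨W.cl X D ^ c * x, by
        have := W.mul_mem hη x.2
        rwa [show 2 * c + i = j by omega] at this⟩
      map_add' := by
        intro x y
        apply Subtype.ext
        simp [mul_add]
      map_smul' := by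
        intro r x
        apply Subtype.ext
        simp }
  have hφ : Function.Injective φ := by
    rw [← LinearMap.ker_eq_bot, LinearMap.ker_eq_bot']
    intro x hx
    apply Subtype.ext
    apply (hHL i hi).1 x x.2
    rw [mulLeft_pow_apply]
    exact congrArg Subtype.val hx
  let f : W.gr X i ≃ₗ[W.K] W.gr X j := LinearMap.linearEquivOfInjective φ hφ hsymm
  let b' := a.map f
  have hb' : ∀ l, (b' l : W.H X) = W.cl X D ^ c * a l := fun l => rfl
  have h3 := det_of_theta (spanSys W) (i := j) (j := j) (p := j) (by ring)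
    (fun l => (b l).2) (a' := fun l => (b' l : W.H X)) (fun l => (b' l).2) h2
  have h4 := detBox_smul_right n _ (fun l => (b l : W.H X)) _ _ (detN_basis n b b')
  have h5 : detBox W X n (fun l => b l) (fun l => b l) =
      (b.det b')⁻¹ • detBox W X n (fun l => b l) (fun l => b' l) := by
    rw [h4, smul_smul, inv_mul_cancel₀ (det_ne_zero b b'), one_smul]
  rw [h5]
  exact Submodule.smul_mem _ _ h3

end Pool.Agent.V1144.Dt
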