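import Pool.Agent.H914R2.CPart
import Pool.Agent.Y129.Pow

/-!
# Systems of algebraic classes
-/

open CategoryTheory AlgebraicGeometry Finset

set_option linter.unusedSectionVars false
set_option linter.unusedVariables false

universe u v

namespace Pool.Agent.V1144.Dt

open Pool.Agent.H914 Pool.Agent.H914.VarClass Pool.Agent.H914.VarClass.Obj
  Pool.Agent.H914.WeilCohomology Pool.Agent.H281R3.HT Pool.Agent.Y129

variable {k : Type u} [Field k] {𝒱 : VarClass k} {ops : CycleOps 𝒱}
  {W : WeilCohomology.{u, v} ops} {X Y Z : 𝒱.Obj}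

/-- Groups of classes which are stable under the operations on cycles. -/
structure AlgSys (W : WeilCohomology.{u, v} ops) where
  /-- the classes -/
  S : ∀ Y : 𝒱.Obj, ℕ → Set (W.H Y)
  zero : ∀ {Y : 𝒱.Obj} {p : ℕ}, (0 : W.H Y) ∈ S Y p
  add : ∀ {Y : 𝒱.Obj} {p : ℕ} {x y : W.H Y}, x ∈ S Y p → y ∈ S Y p → x + y ∈ S Y p
  rat : ∀ {Y : 𝒱.Obj} {p : ℕ} (q : ℚ) {x : W.H Y}, x ∈ S Y p → (q : W.K) • x ∈ S Y p
  deg : ∀ {Y : 𝒱.Obj} {p : ℕ} {x : W.H Y}, x ∈ S Y p → x ∈ W.gr Y (2 * p)
  one : ∀ {Y : 𝒱.Obj}, (1 : W.H Y) ∈ S Y 0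
  mul : ∀ {Y : 𝒱.Obj} {p q : ℕ} {x y : W.H Y}, x ∈ S Y p → y ∈ S Y q → x * y ∈ S Y (p + q)
  pull : ∀ {Y Z : 𝒱.Obj} (f : Y ⟶ Z) {p : ℕ} {x : W.H Z}, x ∈ S Z p → W.map f x ∈ S Y p
  push : ∀ {Y Z : 𝒱.Obj} (f : Y ⟶ Z) {p q : ℕ} {x : W.H Y}, x ∈ S Y p →
    p + Z.dim = q + Y.dim → W.push f x ∈ S Z q

/-- The classes of the cycles with rational coefficients. -/
def ratSys (W : WeilCohomology.{u, v} ops) : AlgSys W where
  S Y p := algClasses W Y p
  zero := alg_zero _
  add := alg_add
  rat := alg_smul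
  deg := alg_gr
  one {Y} := ⟨_, Y.V.fundCycle_mem, W.cl_fund Y⟩
  mul := by
    rintro Y p q _ _ ⟨z, hz, rfl⟩ ⟨w, hw, rfl⟩
    exact ⟨_, ops.mul_mem hz hw, W.cl_mul z w⟩
  pull := by
    rintro Y Z f p _ ⟨z, hz, rfl⟩
    exact ⟨_, ops.pull_mem f hz, W.cl_pull f z⟩
  push := by
    rintro Y Z f p q _ ⟨z, hz, rfl⟩ h
    exact ⟨_, ops.push_mem f hz h, W.cl_push f z⟩

/-- The combinations of the classes of cycles with coefficients in the coefficient field. -/
def spanSys (W : WeilCohomology.{u, v} ops) : AlgSys W where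
  S Y p := spanCycles W Y p
  zero := Submodule.zero_mem _
  add := Submodule.add_mem _
  rat q _ := Submodule.smul_mem _ _
  deg := span_gr
  one := alg_mem_span (ratSys W).one
  mul := by
    intro Y p q x y hx hy
    have h1 : ∀ y ∈ algClasses W Y q, x * y ∈ spanCycles W Y ((p + q : ℕ) : ℤ) := by
      intro y hy
      rw [SetLike.mem_coe, spanCycles_eq] at hx
      induction hx using Submodule.span_induction with
      | mem x hx => exact alg_mem_span ((ratSys W).mul hx hy)
      | zero => rw [zero_mul]; exact Submodule.zero_mem _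
      | add x x' _ _ h h' => rw [add_mul]; exact Submodule.add_mem _ h h'
      | smul r x _ h => rw [smul_mul_assoc]; exact Submodule.smul_mem _ _ h
    rw [SetLike.mem_coe, spanCycles_eq] at hy
    induction hy using Submodule.span_induction with
    | mem y hy => exact h1 y hy
    | zero => rw [mul_zero]; exact Submodule.zero_mem _
    | add x x' _ _ h h' => rw [mul_add]; exact Submodule.add_mem _ h h'
    | smul r x _ h => rw [mul_smul_comm]; exact Submodule.smul_mem _ _ h
  pull := by
    intro Y Z f p x hx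
    rw [SetLike.mem_coe, spanCycles_eq] at hx
    induction hx using Submodule.span_induction with
    | mem y hy => exact alg_mem_span ((ratSys W).pull f hy)
    | zero => rw [map_zero]; exact Submodule.zero_mem _
    | add x x' _ _ h h' => rw [map_add]; exact Submodule.add_mem _ h h'
    | smul r x _ h => rw [map_smul]; exact Submodule.smul_mem _ _ h
  push := by
    intro Y Z f p q x hx hpq
    rw [SetLike.mem_coe, spanCycles_eq] at hx
    induction hx using Submodule.span_induction with
    | mem y hy => exact alg_mem_span ((ratSys W).push f hy hpq)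
    | zero => rw [map_zero]; exact Submodule.zero_mem _
    | add x x' _ _ h h' => rw [map_add]; exact Submodule.add_mem _ h h'
    | smul r x _ h => rw [map_smul]; exact Submodule.smul_mem _ _ h

namespace AlgSys

variable (S : AlgSys W)

lemma neg {p : ℕ} {x : W.H Y} (hx : x ∈ S.S Y p) : -x ∈ S.S Y p := by
  have := S.rat (-1) hx
  simpa using this

lemma sgn {p : ℕ} {x : W.H Y} {s : W.K} (hs : s = 1 ∨ s = -1) (hx : x ∈ S.S Y p) :
    s • x ∈ S.S Y p := by
  rcases hs with rfl | rfl
  · rwa [one_smul]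
  · rw [neg_one_smul]; exact S.neg hx

lemma sum {ι : Type*} (s : Finset ι) {p : ℕ} {f : ι → W.H Y} (h : ∀ i ∈ s, f i ∈ S.S Y p) :
    ∑ i ∈ s, f i ∈ S.S Y p := by
  classical
  induction s using Finset.induction_on with
  | empty => rw [Finset.sum_empty]; exact S.zero
  | insert a s ha ih =>
    rw [Finset.sum_insert ha]
    exact S.add (h a (Finset.mem_insert_self _ _))
      (ih fun i hi => h i (Finset.mem_insert_of_mem hi))

lemma list_prod {p : ℕ} (m : ℕ) {f : Fin m → W.H Y} (h : ∀ i, f i ∈ S.S Y p) :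
    (List.ofFn f).prod ∈ S.S Y (m * p) := by
  induction m with
  | zero => simpa using S.one
  | succ m ih =>
    rw [List.ofFn_succ, List.prod_cons]
    have := S.mul (h 0) (ih fun i => h i.succ)
    rwa [show p + m * p = (m + 1) * p by ring] at this

end AlgSys

end Pool.Agent.V1144.Dt
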