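import Pool.Agent.V1144.Dt.Box
import Pool.Agent.H281R3.HT.Base

/-!
# Traces and contractions
-/

open CategoryTheory AlgebraicGeometry Finset

set_option linter.unusedSectionVars false
set_option linter.unusedVariables false

universe u v

namespace Pool.Agent.V1144.Dt

open Pool.Agent.H914 Pool.Agent.H914.VarClass Pool.Agent.H914.VarClass.Obj
  Pool.Agent.H914.WeilCohomology Pool.Agent.H281R3.HT Pool.Agent.Y129

variable {k : Type u} [Field k] {𝒱 : VarClass k} {ops : CycleOps 𝒱}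
  {W : WeilCohomology.{u, v} ops} {X Y Z : 𝒱.Obj}

lemma box_mul {q j : ℕ} (a : W.H Y) {w : W.H Z} {b : W.H Y} (w' : W.H Z) (hw : w ∈ W.gr Z q)
    (hb : b ∈ W.gr Y j) :
    box W Y Z a w * box W Y Z b w' = ((-1 : W.K) ^ (q * j)) • box W Y Z (a * b) (w * w') := by
  have h1 := W.comm (W.map_mem (snd Y Z) hw) (W.map_mem (fst Y Z) hb)
  rw [box, box, box]
  calc W.map (fst Y Z) a * W.map (snd Y Z) w * (W.map (fst Y Z) b * W.map (snd Y Z) w')
      = W.map (fst Y Z) a * (W.map (snd Y Z) w * W.map (fst Y Z) b) * W.map (snd Y Z) w' := by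
        noncomm_ring
    _ = _ := by
      rw [h1, mul_smul_comm, smul_mul_assoc, map_mul, map_mul]
      congr 1
      noncomm_ring

lemma tr_box (a : W.H Y) (b : W.H Z) : W.tr (Y.prod Z) (box W Y Z a b) = W.tr Y a * W.tr Z b :=
  W.tr_prod a b

lemma tr_box3 {q q' j c : ℕ} (a : W.H Y) {b η : W.H Y} {w w' : W.H Z} (w'' : W.H Z)
    (hw : w ∈ W.gr Z q) (hw' : w' ∈ W.gr Z q') (hb : b ∈ W.gr Y j) (hη : η ∈ W.gr Y (2 * c)) :
    W.tr (Y.prod Z) (box W Y Z a w * box W Y Z b w' * box W Y Z η w'') =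
      (-1) ^ (q * j) * (W.tr Y (a * b * η) * W.tr Z (w * w' * w'')) := by
  rw [box_mul _ _ hw hb, smul_mul_assoc, box_mul _ _ (W.mul_mem hw hw') hη, map_smul, map_smul,
    tr_box]
  have h1 : (-1 : W.K) ^ ((q + q') * (2 * c)) = 1 := by
    rw [show (q + q') * (2 * c) = 2 * ((q + q') * c) by ring, pow_mul, neg_one_sq, one_pow]
  rw [h1, one_smul, smul_eq_mul]

/-- Traces of products of external products. -/
lemma tr_boxN (W : WeilCohomology.{u, v} ops) (X : 𝒱.Obj) (i j c n : ℕ) :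
    ∃ s : W.K, (s = 1 ∨ s = -1) ∧ ∀ a a' : Fin (n + 1) → W.H X, (∀ l, a l ∈ W.gr X i) →
      (∀ l, a' l ∈ W.gr X j) → ∀ η ∈ W.gr X (2 * c),
        W.tr (pw X n) (boxN W X n a * boxN W X n a' * boxN W X n fun _ => η) =
          s * ∏ l, W.tr X (a l * a' l * η) := by
  induction n with
  | zero =>
    refine ⟨1, Or.inl rfl, fun a a' _ _ η _ => ?_⟩
    rw [boxN_zero, boxN_zero, boxN_zero, one_mul]
    simp only [Fin.prod_univ_succ, Finset.univ_eq_empty, Finset.prod_empty, mul_one]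
    rfl
  | succ n ih =>
    obtain ⟨s, hs, hall⟩ := ih
    refine ⟨(-1) ^ ((n + 1) * i * j) * s, sgn_mul (neg_one_pow_or _) hs,
      fun a a' ha ha' η hη => ?_⟩
    rw [boxN_succ, boxN_succ, boxN_succ]
    refine (tr_box3 (a 0) _ (boxN_mem n fun l => ha l.succ) (boxN_mem n fun l => ha' l.succ)
      (ha' 0) hη).trans ?_
    rw [hall _ _ (fun l => ha l.succ) (fun l => ha' l.succ) η hη,
      Fin.prod_univ_succ fun l => W.tr X (a l * a' l * η)]
    ring

/-- The morphism `(x, x', y) ↦ ((x, y), (x', y))`. -/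
noncomputable def dl (X Y : 𝒱.Obj) : (X.prod X).prod Y ⟶ (X.prod Y).prod (X.prod Y) :=
  Obj.lift (Obj.lift (fst (X.prod X) Y ≫ fst X X) (snd (X.prod X) Y))
    (Obj.lift (fst (X.prod X) Y ≫ snd X X) (snd (X.prod X) Y))

/-- The contraction of a class on `(X × Y) × (X × Y)` with a class on `Y`. -/
noncomputable def contr (W : WeilCohomology.{u, v} ops) (X Y : 𝒱.Obj) (Ξ : W.H Y)
    (γ : W.H ((X.prod Y).prod (X.prod Y))) : W.H (X.prod X) :=
  W.push (fst (X.prod X) Y) (W.map (dl X Y) γ * W.map (snd (X.prod X) Y) Ξ)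

lemma contr_add (Ξ : W.H Y) (γ γ' : W.H ((X.prod Y).prod (X.prod Y))) :
    contr W X Y Ξ (γ + γ') = contr W X Y Ξ γ + contr W X Y Ξ γ' := by
  rw [contr, contr, contr, map_add, add_mul, map_add]

lemma contr_smul (Ξ : W.H Y) (r : W.K) (γ : W.H ((X.prod Y).prod (X.prod Y))) :
    contr W X Y Ξ (r • γ) = r • contr W X Y Ξ γ := by
  rw [contr, contr, map_smul, smul_mul_assoc, map_smul]

/-- The contraction as a linear map. -/
noncomputable def contrL (W : WeilCohomology.{u, v} ops) (X Y : 𝒱.Obj) (Ξ : W.H Y) :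
    W.H ((X.prod Y).prod (X.prod Y)) →ₗ[W.K] W.H (X.prod X) where
  toFun := contr W X Y Ξ
  map_add' := contr_add Ξ
  map_smul' r γ := contr_smul Ξ r γ

lemma contr_mem (S : AlgSys W) {p q r : ℕ} {Ξ : W.H Y} (hΞ : Ξ ∈ S.S Y q)
    {γ : W.H ((X.prod Y).prod (X.prod Y))} (hγ : γ ∈ S.S ((X.prod Y).prod (X.prod Y)) p)
    (h : p + q = r + Y.dim) : contr W X Y Ξ γ ∈ S.S (X.prod X) r := by
  refine S.push _ (S.mul (S.pull _ hγ) (S.pull _ hΞ)) ?_
  rw [dim_prod (X.prod X) Y]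
  omega

lemma contr_box {q q' r j : ℕ} (x : W.H X) {w : W.H Y} {y : W.H X} {w' Ξ : W.H Y}
    (hw : w ∈ W.gr Y q) (hw' : w' ∈ W.gr Y q') (hΞ : Ξ ∈ W.gr Y r) (hy : y ∈ W.gr X j) :
    contr W X Y Ξ (box W (X.prod Y) (X.prod Y) (box W X Y x w) (box W X Y y w')) =
      ((-1 : W.K) ^ (q * j) * W.tr Y (w * w' * Ξ)) • box W X X x y := by
  have e1 : dl X Y ≫ fst (X.prod Y) (X.prod Y) =
      Obj.lift (fst (X.prod X) Y ≫ fst X X) (snd (X.prod X) Y) := Obj.lift_fst _ _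
  have e2 : dl X Y ≫ snd (X.prod Y) (X.prod Y) =
      Obj.lift (fst (X.prod X) Y ≫ snd X X) (snd (X.prod X) Y) := Obj.lift_snd _ _
  have h1 : ∀ A B : W.H (X.prod Y), W.map (dl X Y) (box W (X.prod Y) (X.prod Y) A B) =
      W.map (Obj.lift (fst (X.prod X) Y ≫ fst X X) (snd (X.prod X) Y)) A *
        W.map (Obj.lift (fst (X.prod X) Y ≫ snd X X) (snd (X.prod X) Y)) B := by
    intro A B
    rw [box, map_mul, ← W.map_comp, ← W.map_comp, e1, e2]
  have h2 : ∀ {T : 𝒱.Obj} (f : T ⟶ X) (g : T ⟶ Y) (a : W.H X) (b : W.H Y),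
      W.map (Obj.lift f g) (box W X Y a b) = W.map f a * W.map g b := by
    intro T f g a b
    rw [box, map_mul, ← W.map_comp, ← W.map_comp, Obj.lift_fst, Obj.lift_snd]
  have h3 := W.comm (W.map_mem (snd (X.prod X) Y) hw)
    (W.map_mem (fst (X.prod X) Y) (W.map_mem (snd X X) hy))
  rw [contr, h1, h2, h2, W.map_comp, W.map_comp]
  rw [show W.map (fst (X.prod X) Y) (W.map (fst X X) x) * W.map (snd (X.prod X) Y) w *
      (W.map (fst (X.prod X) Y) (W.map (snd X X) y) * W.map (snd (X.prod X) Y) w') *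
      W.map (snd (X.prod X) Y) Ξ = W.map (fst (X.prod X) Y) (W.map (fst X X) x) *
      (W.map (snd (X.prod X) Y) w * W.map (fst (X.prod X) Y) (W.map (snd X X) y)) *
      (W.map (snd (X.prod X) Y) w' * W.map (snd (X.prod X) Y) Ξ) by noncomm_ring, h3]
  rw [mul_smul_comm, smul_mul_assoc, map_smul, mul_smul]
  congr 1
  rw [← push_fst _ (W.mul_mem (W.mul_mem hw hw') hΞ)]
  congr 1
  rw [box, map_mul, map_mul, map_mul]
  noncomm_ring

/-- The contraction of all factors but the first one with the power of a class. -/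
noncomputable def contrP (W : WeilCohomology.{u, v} ops) (X : 𝒱.Obj) (n : ℕ) (η : W.H X) :
    W.H ((pw X (n + 1)).prod (pw X (n + 1))) →ₗ[W.K] W.H (X.prod X) :=
  contrL W X (pw X n) (boxN W X n fun _ => η)

lemma pw_dim (X : 𝒱.Obj) (m : ℕ) : (pw X m).dim = (m + 1) * X.dim := by
  induction m with
  | zero => rw [zero_add, one_mul]; rfl
  | succ m ih =>
    change X.dim + (pw X m).dim = _
    rw [ih]; ring

lemma contrP_mem (S : AlgSys W) {n p c : ℕ} {η : W.H X} (hη : η ∈ S.S X c)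
    (hpc : p + c = X.dim) {γ : W.H ((pw X (n + 1)).prod (pw X (n + 1)))}
    (hγ : γ ∈ S.S ((pw X (n + 1)).prod (pw X (n + 1))) ((n + 2) * p)) :
    contrP W X n η γ ∈ S.S (X.prod X) p := by
  have hΞ : boxN W X n (fun _ => η) ∈ S.S (pw X n) ((n + 1) * c) :=
    S.list_prod (n + 1) fun l => S.pull _ hη
  exact contr_mem (X := X) (Y := pw X n) (r := p) S hΞ hγ (by rw [pw_dim, ← hpc]; ring)

/-- The contraction of an external product of external products. -/
lemma contrP_boxN (W : WeilCohomology.{u, v} ops) (X : 𝒱.Obj) (i j c n : ℕ) :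
    ∃ s : W.K, (s = 1 ∨ s = -1) ∧ ∀ a a' : Fin (n + 2) → W.H X, (∀ l, a l ∈ W.gr X i) →
      (∀ l, a' l ∈ W.gr X j) → ∀ η ∈ W.gr X (2 * c),
        contrP W X n η
          (box W (pw X (n + 1)) (pw X (n + 1)) (boxN W X (n + 1) a) (boxN W X (n + 1) a')) =
          (s * ∏ l : Fin (n + 1), W.tr X (a l.succ * a' l.succ * η)) •
            box W X X (a 0) (a' 0) := by
  obtain ⟨s, hs, hall⟩ := tr_boxN W X i j c n
  refine ⟨(-1) ^ ((n + 1) * i * j) * s, sgn_mul (neg_one_pow_or _) hs,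
    fun a a' ha ha' η hη => ?_⟩
  rw [boxN_succ, boxN_succ]
  refine (contr_box (a 0) (boxN_mem n fun l => ha l.succ) (boxN_mem n fun l => ha' l.succ)
    (boxN_mem n fun _ => hη) (ha' 0)).trans ?_
  rw [hall _ _ (fun l => ha l.succ) (fun l => ha' l.succ) η hη]
  congr 1
  ring

end Pool.Agent.V1144.Dt
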